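import Pool.Agent.Helper917_ITM.Struct

/-! The 2-connected paw- and diamond-induced-topological-minor-free graphs. -/

namespace Pool.Agent.Helper917ITM

open Pool.Agent.H175R2 Finset Classical

variable {V W : Type} {G : SimpleGraph V}

lemma inj4 {w0 w1 w2 w3 : V} (h01 : w0 ≠ w1) (h02 : w0 ≠ w2) (h03 : w0 ≠ w3) (h12 : w1 ≠ w2)
    (h13 : w1 ≠ w3) (h23 : w2 ≠ w3) : Function.Injective ![w0, w1, w2, w3] := by
  intro i j hij
  fin_cases i <;> fin_cases j <;> simp_all

/-- a copy of the diamond -/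
lemma on_diamond {D : Set V} {w0 w1 w2 w3 : V} (m0 : w0 ∈ D) (m1 : w1 ∈ D) (m2 : w2 ∈ D)
    (m3 : w3 ∈ D) (h01 : G.Adj w0 w1) (h02 : G.Adj w0 w2) (h03 : G.Adj w0 w3) (h12 : G.Adj w1 w2)
    (h13 : G.Adj w1 w3) (h23 : ¬ G.Adj w2 w3) (n23 : w2 ≠ w3) : On diamond G D := by
  refine On.of_map ![w0, w1, w2, w3] (inj4 h01.ne h02.ne h03.ne h12.ne h13.ne n23) ?_ ?_
  · intro i; fin_cases i <;> assumption
  · have h23' : ¬ G.Adj w3 w2 := fun h => h23 h.symm
    intro i j
    fin_cases i <;> fin_cases j <;>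
      simp [diamond, SimpleGraph.fromRel_adj, h01, h02, h03, h12, h13, h23, h01.symm, h02.symm,
        h03.symm, h12.symm, h13.symm, h23']

/-- a copy of the paw -/
lemma on_paw {D : Set V} {w0 w1 w2 w3 : V} (m0 : w0 ∈ D) (m1 : w1 ∈ D) (m2 : w2 ∈ D)
    (m3 : w3 ∈ D) (h01 : G.Adj w0 w1) (h02 : G.Adj w0 w2) (h03 : G.Adj w0 w3) (h12 : G.Adj w1 w2)
    (h13 : ¬ G.Adj w3 w1) (h23 : ¬ G.Adj w3 w2) (n13 : w3 ≠ w1) (n23 : w3 ≠ w2) :
    On paw G D := by
  refine On.of_map ![w0, w1, w2, w3] (inj4 h01.ne h02.ne h03.ne h12.ne n13.symm n23.symm) ?_ ?_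
  · intro i; fin_cases i <;> assumption
  · have h23' : ¬ G.Adj w2 w3 := fun h => h23 h.symm
    have h13' : ¬ G.Adj w1 w3 := fun h => h13 h.symm
    intro i j
    fin_cases i <;> fin_cases j <;>
      simp [paw, SimpleGraph.fromRel_adj, h01, h02, h03, h12, h13, h23, h01.symm, h02.symm,
        h03.symm, h12.symm, h13', h23']

/-- a four-cycle `p0 p1 p2 p3` with a pendant vertex `q` at `p0` is a subdivision of the paw -/
lemma on_c4p {D : Set V} {p0 p1 p2 p3 q : V} (m0 : p0 ∈ D) (m1 : p1 ∈ D) (m2 : p2 ∈ D)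
    (m3 : p3 ∈ D) (mq : q ∈ D) (h01 : G.Adj p0 p1) (h12 : G.Adj p1 p2) (h23 : G.Adj p2 p3)
    (h03 : G.Adj p0 p3) (h02 : ¬ G.Adj p0 p2) (h13 : ¬ G.Adj p1 p3) (n02 : p0 ≠ p2) (n13 : p1 ≠ p3)
    (hq : G.Adj q p0) (q1 : ¬ G.Adj q p1) (q2 : ¬ G.Adj q p2) (q3 : ¬ G.Adj q p3) (nq1 : q ≠ p1)
    (nq2 : q ≠ p2) (nq3 : q ≠ p3) : On paw G D := by
  have hsub : ({p0, p1, p2, p3, q} : Set V) ⊆ D := by
    intro z hz
    simp only [Set.mem_insert_iff, Set.mem_singleton_iff] at hz
    rcases hz with rfl | rfl | rfl | rfl | rfl <;> assumption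
  refine On.mono ?_ hsub
  refine On.suppress (v := p2) (a := p1) (b := p3) (by simp) h12.symm h23 n13 h13 ?_ ?_
  · intro x hx h
    simp only [Set.mem_insert_iff, Set.mem_singleton_iff] at hx
    rcases hx with rfl | rfl | rfl | rfl | rfl
    · exact absurd h.symm h02
    · exact Or.inl rfl
    · exact absurd rfl h.ne
    · exact Or.inr rfl
    · exact absurd h.symm q2
  · have na : ∀ x y, ¬ G.Adj x y → ¬ (x = p1 ∧ y = p3) → ¬ (x = p3 ∧ y = p1) →
        ¬ (addE G p1 p3).Adj x y := by
      intro x y h1 h2 h3 h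
      rcases (addE_adj n13).1 h with h4 | h4 | h4
      · exact h1 h4
      · exact h2 h4
      · exact h3 h4
    have ya : ∀ x y, G.Adj x y → (addE G p1 p3).Adj x y := fun x y h => (addE_adj n13).2 (Or.inl h)
    refine on_paw (w0 := p0) (w1 := p1) (w2 := p3) (w3 := q) ?_ ?_ ?_ ?_ (ya _ _ h01) (ya _ _ h03)
      (ya _ _ hq.symm) ((addE_adj n13).2 (Or.inr (Or.inl ⟨rfl, rfl⟩)))
      (na _ _ q1 (fun h => nq1 h.1) (fun h => nq3 h.1)) (na _ _ q3 (fun h => nq1 h.1)
        (fun h => nq3 h.1)) nq1 nq3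
    · exact ⟨by simp, by simpa using n02⟩
    · exact ⟨by simp, by simpa using h12.ne⟩
    · exact ⟨by simp, by simpa using h23.ne.symm⟩
    · exact ⟨by simp, by simpa using nq2⟩

/-! ### the diamond -/

theorem diamond_two : ∀ n (G : SimpleGraph V) (D : Finset V), D.card ≤ n → TwoC G D →
    On diamond G D ∨ Kc G D ∨ Cyc G D := by
  refine main_ind Kc (fun G D h => h) ?_ ?_ ?_
  · rintro G E v hv ht hK ⟨a, ha, b, hb, hab, va, vb⟩
    by_cases hall : ∀ c ∈ E, G.Adj v c
    · right
      intro x hx y hy hxy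
      rcases mem_insert.1 hx with rfl | hx' <;> rcases mem_insert.1 hy with rfl | hy'
      · exact absurd rfl hxy
      · exact hall y hy'
      · exact (hall x hx').symm
      · exact hK x hx' y hy' hxy
    · push Not at hall
      obtain ⟨c, hc, hvc⟩ := hall
      left
      have hca : c ≠ a := by rintro rfl; exact hvc va
      have hcb : c ≠ b := by rintro rfl; exact hvc vb
      have mE : ∀ z ∈ E, z ∈ ((insert v E : Finset V) : Set V) := fun z hz => by simp [hz]
      exact on_diamond (w0 := a) (w1 := b) (w2 := v) (w3 := c) (mE a ha) (mE b hb) (by simp)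
        (mE c hc) (hK a ha b hb hab) va.symm (hK a ha c hc hca.symm) vb.symm (hK b hb c hc hcb.symm)
        hvc (by rintro rfl; exact hv hc)
  · intro G E v hv ht hC hall htri
    left
    obtain ⟨x, hx⟩ := ht.conn.1
    obtain ⟨a, b, hd⟩ := hC x hx
    have mE : ∀ z ∈ E, z ∈ ((insert v E : Finset V) : Set V) := fun z hz => by simp [hz]
    exact on_diamond (w0 := v) (w1 := x) (w2 := a) (w3 := b) (by simp) (mE x hx) (mE a hd.ha)
      (mE b hd.hb) (hall x hx) (hall a hd.ha) (hall b hd.hb) hd.va hd.vb (htri x a b hd) hd.ne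
  · intro G D v a b h4 ht hd hab ht' hK
    -- another vertex
    have hva := hd.va.ne
    have hvb := hd.vb.ne
    have hc : (((D.erase v).erase a).erase b).card = D.card - 3 := by
      rw [card_erase_of_mem (mem_erase.2 ⟨hd.ne.symm, mem_erase.2 ⟨hvb.symm, hd.hb⟩⟩),
        card_erase_of_mem (mem_erase.2 ⟨hva.symm, hd.ha⟩), card_erase_of_mem hd.hv]
      omega
    obtain ⟨c, hcm⟩ : (((D.erase v).erase a).erase b).Nonempty := card_pos.1 (by omega)
    have real : ∀ x ∈ D.erase v, ∀ y ∈ D.erase v, x ≠ y → ¬ (x = a ∧ y = b) → ¬ (x = b ∧ y = a) →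
        G.Adj x y := by
      intro x hx y hy hxy h1 h2
      rcases (addE_adj hd.ne).1 (hK x hx y hy hxy) with h3 | h3 | h3
      · exact h3
      · exact absurd h3 h1
      · exact absurd h3 h2
    have hcm' := hcm
    simp only [mem_erase] at hcm'
    obtain ⟨hcb, hca, hcv, hcD⟩ := hcm'
    have mc : c ∈ D.erase v := mem_erase.2 ⟨hcv, hcD⟩
    have ma : a ∈ D.erase v := mem_erase.2 ⟨hva.symm, hd.ha⟩
    have mb : b ∈ D.erase v := mem_erase.2 ⟨hvb.symm, hd.hb⟩
    have ca : G.Adj c a := real c mc a ma hca (fun h => hca h.1) (fun h => hcb h.1)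
    have cb : G.Adj c b := real c mc b mb hcb (fun h => hca h.1) (fun h => hcb h.1)
    by_cases hex : ∃ d ∈ D, d ≠ v ∧ d ≠ a ∧ d ≠ b ∧ d ≠ c
    · obtain ⟨d, hdD, hdv, hda, hdb, hdc⟩ := hex
      have md : d ∈ D.erase v := mem_erase.2 ⟨hdv, hdD⟩
      left
      exact on_diamond (w0 := c) (w1 := d) (w2 := a) (w3 := b) hcD hdD hd.ha hd.hb
        (real c mc d md hdc.symm (fun h => hca h.1) (fun h => hcb h.1)) ca cb
        (real d md a ma hda (fun h => hda h.1) (fun h => hdb h.1))
        (real d md b mb hdb (fun h => hda h.1) (fun h => hdb h.1)) hab hd.ne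
    · push Not at hex
      right; right
      have cov : ∀ x ∈ D, x = v ∨ x = a ∨ x = b ∨ x = c := by
        intro x hx
        by_contra hcon
        push Not at hcon
        exact hcon.2.2.2 (hex x hx hcon.1 hcon.2.1 hcon.2.2.1)
      have hvc : ¬ G.Adj v c := by
        intro h
        rcases hd.only c hcD h with h1 | h1
        · exact hca h1
        · exact hcb h1
      intro x hx
      rcases cov x hx with rfl | rfl | rfl | rfl
      · exact ⟨a, b, hd⟩
      · refine ⟨v, c, hx, hd.hv, hcD, hcv.symm, hd.va.symm, ca.symm, ?_⟩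
        intro y hy hxy
        rcases cov y hy with rfl | rfl | rfl | rfl
        · exact Or.inl rfl
        · exact absurd rfl hxy.ne
        · exact absurd hxy hab
        · exact Or.inr rfl
      · refine ⟨v, c, hx, hd.hv, hcD, hcv.symm, hd.vb.symm, cb.symm, ?_⟩
        intro y hy hxy
        rcases cov y hy with rfl | rfl | rfl | rfl
        · exact Or.inl rfl
        · exact absurd hxy.symm hab
        · exact absurd rfl hxy.ne
        · exact Or.inr rfl
      · refine ⟨a, b, hx, hd.ha, hd.hb, hd.ne, ca, cb, ?_⟩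
        intro y hy hxy
        rcases cov y hy with rfl | rfl | rfl | rfl
        · exact absurd hxy.symm hvc
        · exact Or.inl rfl
        · exact Or.inr rfl
        · exact absurd rfl hxy.ne

/-! ### the paw -/

lemma Deg2.other {D : Finset V} {v a b x : V} (h : Deg2 G D v a b) (hx : x ∈ D) (vx : G.Adj v x) :
    ∃ r, Deg2 G D v x r := by
  rcases h.only x hx vx with rfl | rfl
  · exact ⟨b, h⟩
  · exact ⟨a, h.two hx h.ha h.ne.symm vx h.va⟩

/-- complete multipartite from a bipartition -/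
lemma cm_of_bip {D : Finset V} (P : V → Prop)
    (h1 : ∀ x ∈ D, ∀ y ∈ D, P x → P y → ¬ G.Adj x y)
    (h2 : ∀ x ∈ D, ∀ y ∈ D, ¬ P x → ¬ P y → ¬ G.Adj x y)
    (h3 : ∀ x ∈ D, ∀ y ∈ D, P x → ¬ P y → G.Adj x y) : CM G D := by
  intro x hx y hy z hz hxy
  by_cases px : P x <;> by_cases py : P y
  · exact absurd hxy (h1 x hx y hy px py)
  · by_cases pz : P z
    · exact Or.inr (h3 z hz y hy pz py)
    · exact Or.inl (h3 x hx z hz px pz).symm
  · by_cases pz : P z
    · exact Or.inl (h3 z hz x hx pz px)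
    · exact Or.inr (h3 y hy z hz py pz).symm
  · exact absurd hxy (h2 x hx y hy px py)

lemma paw_case1 {E : Finset V} {D : Set V} {v : V} (hv : v ∉ E) (hED : ∀ z ∈ E, z ∈ D) (hvD : v ∈ D)
    (hC : CM G E) {p q x y : V} (hp : p ∈ E) (hq : q ∈ E) (hpq : p ≠ q) (vp : G.Adj v p)
    (vq : G.Adj v q) (hx : x ∈ E) (hy : y ∈ E) (hxy : G.Adj x y) (vx : ¬ G.Adj v x)
    (vy : ¬ G.Adj v y) : On paw G D := by
  have nv : ∀ z ∈ E, v ≠ z := by rintro z hz rfl; exact hv hz
  have both : ∀ p ∈ E, G.Adj v p → G.Adj p x → G.Adj p y → On paw G D := by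
    intro p hp vp px py
    exact on_paw (w0 := p) (w1 := x) (w2 := y) (w3 := v) (hED p hp) (hED x hx) (hED y hy) hvD px py
      vp.symm hxy vx vy (nv x hx) (nv y hy)
  by_cases p2 : G.Adj p x ∧ G.Adj p y
  · exact both p hp vp p2.1 p2.2
  by_cases q2 : G.Adj q x ∧ G.Adj q y
  · exact both q hq vq q2.1 q2.2
  -- opposite ends
  have opp : ∀ x y : V, x ∈ E → y ∈ E → G.Adj x y → ¬ G.Adj v x → ¬ G.Adj v y →
      G.Adj p x → ¬ G.Adj p y → G.Adj q y → ¬ G.Adj q x → On paw G D := by
    intro x y hx hy hxy vx vy px py qy qx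
    have hpq' : G.Adj p q := (hC q hq y hy p hp qy).resolve_right py
    exact on_paw (w0 := p) (w1 := q) (w2 := v) (w3 := x) (hED p hp) (hED q hq) hvD (hED x hx) hpq'
      vp.symm px vq.symm (fun h => qx h.symm) (fun h => vx h.symm) (by rintro rfl; exact vx vq)
      (nv x hx).symm
  have sam : ∀ x y : V, x ∈ E → y ∈ E → G.Adj x y → ¬ G.Adj v x → ¬ G.Adj v y →
      G.Adj p x → ¬ G.Adj p y → G.Adj q x → ¬ G.Adj q y → On paw G D := by
    intro x y hx hy hxy vx vy px py qx qy
    have hpq' : ¬ G.Adj p q := by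
      intro h
      rcases hC p hp q hq y hy h with h1 | h1
      · exact py h1.symm
      · exact qy h1.symm
    exact on_c4p (p0 := x) (p1 := p) (p2 := v) (p3 := q) (q := y) (hED x hx) (hED p hp) hvD
      (hED q hq) (hED y hy) px.symm vp.symm vq qx.symm (fun h => vx h.symm) hpq' (nv x hx).symm hpq
      hxy.symm (fun h => py h.symm) (fun h => vy h.symm) (fun h => qy h.symm)
      (by rintro rfl; exact vy vp) (nv y hy).symm (by rintro rfl; exact vy vq)
  rcases hC x hx y hy p hp hxy with px | py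
  · have py : ¬ G.Adj p y := fun h => p2 ⟨px, h⟩
    rcases hC x hx y hy q hq hxy with qx | qy
    · exact sam x y hx hy hxy vx vy px py qx (fun h => q2 ⟨qx, h⟩)
    · exact opp x y hx hy hxy vx vy px py qy (fun h => q2 ⟨h, qy⟩)
  · have px : ¬ G.Adj p x := fun h => p2 ⟨h, py⟩
    rcases hC x hx y hy q hq hxy with qx | qy
    · exact opp y x hy hx hxy.symm vy vx py px qx (fun h => q2 ⟨qx, h⟩)
    · exact sam y x hy hx hxy.symm vy vx py px qy (fun h => q2 ⟨h, qy⟩)

lemma paw_case2 {E : Finset V} {D : Set V} {v : V} (hv : v ∉ E) (hED : ∀ z ∈ E, z ∈ D) (hvD : v ∈ D)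
    (ht : TwoC G E) (hC : CM G E) {q y z : V} (hq : q ∈ E) (hqy : q ≠ y) (vq : G.Adj v q)
    (hy : y ∈ E) (hz : z ∈ E) (vy : G.Adj v y) (zv : ¬ G.Adj z v) (zy : ¬ G.Adj z y) :
    On paw G D := by
  have nv : ∀ z ∈ E, v ≠ z := by rintro z hz rfl; exact hv hz
  have key : ∀ w ∈ E, G.Adj z w → G.Adj w v → On paw G D := by
    intro w hw zw wv
    have yw : G.Adj y w := (hC w hw z hz y hy zw.symm).resolve_right (fun h => zy h.symm)
    exact on_paw (w0 := w) (w1 := y) (w2 := v) (w3 := z) (hED w hw) (hED y hy) hvD (hED z hz)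
      yw.symm wv zw.symm vy.symm zy zv (by rintro rfl; exact zv vy.symm) (nv z hz).symm
  obtain ⟨w, hw, w', _, _, zw, _⟩ := ht.two_nbrs hz
  by_cases wv : G.Adj w v
  · exact key w hw zw wv
  by_cases zq : G.Adj z q
  · exact key q hq zq vq.symm
  have yw : G.Adj y w := (hC w hw z hz y hy zw.symm).resolve_right (fun h => zy h.symm)
  have qw : G.Adj q w := (hC w hw z hz q hq zw.symm).resolve_right (fun h => zq h.symm)
  have qy : ¬ G.Adj y q := by
    intro h
    rcases hC y hy q hq z hz h with h1 | h1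
    · exact zy h1
    · exact zq h1
  exact on_c4p (p0 := w) (p1 := y) (p2 := v) (p3 := q) (q := z) (hED w hw) (hED y hy) hvD
    (hED q hq) (hED z hz) yw.symm vy.symm vq qw.symm wv qy (nv w hw).symm hqy.symm zw zy zv zq
    (by rintro rfl; exact zv vy.symm) (nv z hz).symm (by rintro rfl; exact zv vq.symm)

lemma paw_G2 (G : SimpleGraph V) (E : Finset V) (v : V) (hv : v ∉ E) (ht : TwoC G E) (hC : CM G E)
    (hnb : ∃ a ∈ E, ∃ b ∈ E, a ≠ b ∧ G.Adj v a ∧ G.Adj v b) :
    On paw G (insert v E : Finset V) ∨ CM G (insert v E) := by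
  obtain ⟨p, hp, q, hq, hpq, vp, vq⟩ := hnb
  by_cases hcm : CM G (insert v E)
  · exact Or.inr hcm
  left
  unfold CM at hcm
  push Not at hcm
  obtain ⟨x, hx, y, hy, z, hz, hxy, zx, zy⟩ := hcm
  have hED : ∀ z ∈ E, z ∈ ((insert v E : Finset V) : Set V) := fun z hz => by simp [hz]
  have hvD : v ∈ ((insert v E : Finset V) : Set V) := by simp
  have two : ∀ y z : V, y ∈ E → z ∈ E → G.Adj v y → ¬ G.Adj z v → ¬ G.Adj z y →
      On paw G (insert v E : Finset V) := by
    intro y z hy hz vy zv zy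
    by_cases hqy : q = y
    · exact paw_case2 hv hED hvD ht hC hp (fun h => hpq (h.trans hqy.symm)) vp hy hz vy zv zy
    · exact paw_case2 hv hED hvD ht hC hq hqy vq hy hz vy zv zy
  rcases mem_insert.1 hz with rfl | hz'
  · rcases mem_insert.1 hx with rfl | hx'
    · exact absurd hxy zy
    · rcases mem_insert.1 hy with rfl | hy'
      · exact absurd hxy.symm zx
      · exact paw_case1 hv hED hvD hC hp hq hpq vp vq hx' hy' hxy zx zy
  · rcases mem_insert.1 hx with rfl | hx'
    · rcases mem_insert.1 hy with rfl | hy'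
      · exact absurd rfl hxy.ne
      · exact two y z hy' hz' hxy zx zy
    · rcases mem_insert.1 hy with rfl | hy'
      · exact two x z hx' hz' hxy.symm zy zx
      · rcases hC x hx' y hy' z hz' hxy with h | h
        · exact absurd h zx
        · exact absurd h zy

lemma paw_G3 (G : SimpleGraph V) (E : Finset V) (v : V) (_ : v ∉ E) (ht : TwoC G E)
    (hC : Cyc G E) (hall : ∀ x ∈ E, G.Adj v x) (htri : ∀ x a b, Deg2 G E x a b → ¬ G.Adj a b) :
    On paw G (insert v E : Finset V) ∨ CM G (insert v E) := by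
  have hED : ∀ z ∈ E, z ∈ ((insert v E : Finset V) : Set V) := fun z hz => by simp [hz]
  have hvD : v ∈ ((insert v E : Finset V) : Set V) := by simp
  obtain ⟨x, hx⟩ := ht.conn.1
  obtain ⟨a, b, hd⟩ := hC x hx
  obtain ⟨a1, a2, ha0⟩ := hC a hd.ha
  obtain ⟨b1, b2, hb0⟩ := hC b hd.hb
  obtain ⟨a', ha⟩ := ha0.other hx hd.va.symm
  obtain ⟨b', hb⟩ := hb0.other hx hd.vb.symm
  have hab : ¬ G.Adj a b := htri x a b hd
  have hxa' : ¬ G.Adj x a' := htri a x a' ha
  have hxb' : ¬ G.Adj x b' := htri b x b' hb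
  by_cases he : a' = b'
  · right
    subst he
    -- `E` is a four-cycle
    have hc : Deg2 G E a' a b := by
      obtain ⟨c1, c2, hc⟩ := hC a' ha.hb
      exact hc.two hd.ha hd.hb hd.ne ha.vb.symm hb.vb.symm
    have cov : ∀ y ∈ E, y = x ∨ y = a ∨ y = b ∨ y = a' := by
      by_contra hcon
      push Not at hcon
      obtain ⟨y, hy, h1, h2, h3, h4⟩ := hcon
      obtain ⟨p, hp, q, hq, hpq⟩ := ht.conn.2 {x, a, b, a'} (by
        intro z hz
        simp only [mem_insert, mem_singleton] at hz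
        rcases hz with rfl | rfl | rfl | rfl
        · exact hd.hv
        · exact hd.ha
        · exact hd.hb
        · exact ha.hb) ⟨x, by simp⟩ ⟨y, by simp [hy, h1, h2, h3, h4]⟩
      simp only [mem_sdiff, mem_insert, mem_singleton, not_or] at hp hq
      obtain ⟨hqE, q1, q2, q3, q4⟩ := hq
      rcases hp with rfl | rfl | rfl | rfl
      · rcases hd.only q hqE hpq with h | h
        · exact q2 h
        · exact q3 h
      · rcases ha.only q hqE hpq with h | h
        · exact q1 h
        · exact q4 h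
      · rcases hb.only q hqE hpq with h | h
        · exact q1 h
        · exact q4 h
      · rcases hc.only q hqE hpq with h | h
        · exact q2 h
        · exact q3 h
    have nxa' : x ≠ a' := ha.ne
    have cmE : CM G E := by
      refine cm_of_bip (fun z => z = x ∨ z = a') ?_ ?_ ?_
      · rintro p - q - (rfl | rfl) (rfl | rfl) h
        · exact h.ne rfl
        · exact hxa' h
        · exact hxa' h.symm
        · exact h.ne rfl
      · intro p hp q hq np nq h
        have hp' : p = a ∨ p = b := by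
          rcases cov p hp with h1 | h1 | h1 | h1
          · exact absurd (Or.inl h1) np
          · exact Or.inl h1
          · exact Or.inr h1
          · exact absurd (Or.inr h1) np
        have hq' : q = a ∨ q = b := by
          rcases cov q hq with h1 | h1 | h1 | h1
          · exact absurd (Or.inl h1) nq
          · exact Or.inl h1
          · exact Or.inr h1
          · exact absurd (Or.inr h1) nq
        rcases hp' with rfl | rfl <;> rcases hq' with rfl | rfl
        · exact h.ne rfl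
        · exact hab h
        · exact hab h.symm
        · exact h.ne rfl
      · intro p hp q hq hp' nq
        have hq' : q = a ∨ q = b := by
          rcases cov q hq with h1 | h1 | h1 | h1
          · exact absurd (Or.inl h1) nq
          · exact Or.inl h1
          · exact Or.inr h1
          · exact absurd (Or.inr h1) nq
        rcases hp' with rfl | rfl <;> rcases hq' with rfl | rfl
        · exact hd.va
        · exact hd.vb
        · exact ha.vb.symm
        · exact hb.vb.symm
    intro p hp q hq r hr hpq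
    rcases mem_insert.1 hr with rfl | hr'
    · rcases mem_insert.1 hp with rfl | hp'
      · exact Or.inr hpq
      · exact Or.inl (hall p hp')
    · rcases mem_insert.1 hp with rfl | hp'
      · exact Or.inl (hall r hr').symm
      · rcases mem_insert.1 hq with rfl | hq'
        · exact Or.inr (hall r hr').symm
        · exact cmE p hp' q hq' r hr' hpq
  · left
    refine on_paw (w0 := v) (w1 := x) (w2 := a) (w3 := b') hvD (hED x hx) (hED a hd.ha)
      (hED b' hb.hb) (hall x hx) (hall a hd.ha) (hall b' hb.hb) hd.va (fun h => hxb' h.symm) ?_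
      hb.ne.symm ?_
    · intro h
      rcases ha.only b' hb.hb h.symm with h1 | h1
      · exact hb.ne h1.symm
      · exact he h1.symm
    · rintro rfl
      exact hab hb.vb.symm

lemma paw_G4 (G : SimpleGraph V) (D : Finset V) (v a b : V) (_ : 4 ≤ D.card) (_ : TwoC G D)
    (hd : Deg2 G D v a b) (hab : ¬ G.Adj a b) (ht' : TwoC (addE G a b) (D.erase v))
    (hC : CM (addE G a b) (D.erase v)) : On paw G D ∨ CM G D ∨ Cyc G D := by
  have hva := hd.va.ne
  have hvb := hd.vb.ne
  have mD : ∀ z ∈ D, z ∈ (D : Set V) := fun z hz => by simpa using hz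
  have ma : a ∈ D.erase v := mem_erase.2 ⟨hva.symm, hd.ha⟩
  have mb : b ∈ D.erase v := mem_erase.2 ⟨hvb.symm, hd.hb⟩
  have eab : (addE G a b).Adj a b := (addE_adj hd.ne).2 (Or.inr (Or.inl ⟨rfl, rfl⟩))
  -- adjacency at the other vertices
  have same : ∀ c y, c ≠ a → c ≠ b → ((addE G a b).Adj c y ↔ G.Adj c y) := by
    intro c y hca hcb
    rw [addE_adj hd.ne]
    constructor
    · rintro (h | h | h)
      · exact h
      · exact absurd h.1 hca
      · exact absurd h.1 hcb
    · exact Or.inl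
  have same' : ∀ c y, c ≠ a → c ≠ b → ((addE G a b).Adj y c ↔ G.Adj y c) := by
    intro c y hca hcb
    rw [SimpleGraph.adj_comm, same c y hca hcb, SimpleGraph.adj_comm]
  have vc : ∀ c ∈ D, c ≠ a → c ≠ b → ¬ G.Adj v c := by
    intro c hc hca hcb h
    rcases hd.only c hc h with h1 | h1
    · exact hca h1
    · exact hcb h1
  have hR : ∀ c ∈ D, c ≠ v → c ≠ a → c ≠ b → G.Adj c a ∨ G.Adj c b := by
    intro c hc hcv hca hcb
    have := hC a ma b mb c (mem_erase.2 ⟨hcv, hc⟩) eab
    rwa [same c a hca hcb, same c b hca hcb] at this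
  by_cases hα : ∃ c ∈ D, c ≠ v ∧ c ≠ a ∧ c ≠ b ∧ G.Adj c a ∧ G.Adj c b
  · obtain ⟨c, hcD, hcv, hca, hcb, ca, cb⟩ := hα
    have mc : c ∈ D.erase v := mem_erase.2 ⟨hcv, hcD⟩
    by_cases hdc : ∃ d ∈ D, d ≠ v ∧ d ≠ a ∧ d ≠ b ∧ G.Adj d c
    · obtain ⟨d, hdD, hdv, hda, hdb, hdc⟩ := hdc
      left
      rcases hR d hdD hdv hda hdb with h | h
      · exact on_paw (w0 := a) (w1 := c) (w2 := d) (w3 := v) (mD a hd.ha) (mD c hcD) (mD d hdD)
          (mD v hd.hv) ca.symm h.symm hd.va.symm hdc.symm (vc c hcD hca hcb) (vc d hdD hda hdb)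
          hcv.symm hdv.symm
      · exact on_paw (w0 := b) (w1 := c) (w2 := d) (w3 := v) (mD b hd.hb) (mD c hcD) (mD d hdD)
          (mD v hd.hv) cb.symm h.symm hd.vb.symm hdc.symm (vc c hcD hca hcb) (vc d hdD hda hdb)
          hcv.symm hdv.symm
    · push Not at hdc
      right; left
      have da : ∀ d ∈ D, d ≠ v → d ≠ a → d ≠ b → G.Adj d a := by
        intro d hdD hdv hda hdb
        have := hC c mc a ma d (mem_erase.2 ⟨hdv, hdD⟩) ((same c a hca hcb).2 ca)
        rw [same d c hda hdb, same d a hda hdb] at this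
        exact this.resolve_left (hdc d hdD hdv hda hdb)
      have db : ∀ d ∈ D, d ≠ v → d ≠ a → d ≠ b → G.Adj d b := by
        intro d hdD hdv hda hdb
        have := hC c mc b mb d (mem_erase.2 ⟨hdv, hdD⟩) ((same c b hca hcb).2 cb)
        rw [same d c hda hdb, same d b hda hdb] at this
        exact this.resolve_left (hdc d hdD hdv hda hdb)
      have ind : ∀ d ∈ D, ∀ e ∈ D, d ≠ v → d ≠ a → d ≠ b → e ≠ v → e ≠ a → e ≠ b → ¬ G.Adj d e := by
        intro d hdD e heD hdv hda hdb hev hea heb h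
        have := hC d (mem_erase.2 ⟨hdv, hdD⟩) e (mem_erase.2 ⟨hev, heD⟩) c mc
          ((same d e hda hdb).2 h)
        rw [same c d hca hcb, same c e hca hcb] at this
        rcases this with h1 | h1
        · exact hdc d hdD hdv hda hdb h1.symm
        · exact hdc e heD hev hea heb h1.symm
      refine cm_of_bip (fun z => z = a ∨ z = b) ?_ ?_ ?_
      · rintro p - q - (rfl | rfl) (rfl | rfl) h
        · exact h.ne rfl
        · exact hab h
        · exact hab h.symm
        · exact h.ne rfl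
      · intro p hp q hq np nq h
        rw [not_or] at np nq
        by_cases hpv : p = v
        · subst hpv; exact vc q hq nq.1 nq.2 h
        · by_cases hqv : q = v
          · subst hqv; exact vc p hp np.1 np.2 h.symm
          · exact ind p hp q hq hpv np.1 np.2 hqv nq.1 nq.2 h
      · intro p hp q hq hp' nq
        rw [not_or] at nq
        by_cases hqv : q = v
        · subst hqv
          rcases hp' with rfl | rfl
          · exact hd.va.symm
          · exact hd.vb.symm
        · rcases hp' with rfl | rfl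
          · exact (da q hq hqv nq.1 nq.2).symm
          · exact (db q hq hqv nq.1 nq.2).symm
  · push Not at hα
    -- a neighbour `c` of `a` and a neighbour `d` of `b`
    obtain ⟨c, hcD, hcv, hca, hcb, ca⟩ : ∃ c ∈ D, c ≠ v ∧ c ≠ a ∧ c ≠ b ∧ G.Adj c a := by
      obtain ⟨p, hp, q, hq, hpq, ap, aq⟩ := ht'.two_nbrs ma
      have gen : ∀ p ∈ D.erase v, p ≠ b → (addE G a b).Adj a p →
          ∃ c ∈ D, c ≠ v ∧ c ≠ a ∧ c ≠ b ∧ G.Adj c a := by
        intro p hp hpb hap
        have hp' := mem_erase.1 hp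
        have hpa : p ≠ a := hap.ne.symm
        exact ⟨p, hp'.2, hp'.1, hpa, hpb, ((same' p a hpa hpb).1 hap).symm⟩
      by_cases hpb : p = b
      · exact gen q hq (fun h => hpq (hpb.trans h.symm)) aq
      · exact gen p hp hpb ap
    obtain ⟨d, hdD, hdv, hda, hdb, db⟩ : ∃ c ∈ D, c ≠ v ∧ c ≠ a ∧ c ≠ b ∧ G.Adj c b := by
      obtain ⟨p, hp, q, hq, hpq, ap, aq⟩ := ht'.two_nbrs mb
      have gen : ∀ p ∈ D.erase v, p ≠ a → (addE G a b).Adj b p →
          ∃ c ∈ D, c ≠ v ∧ c ≠ a ∧ c ≠ b ∧ G.Adj c b := by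
        intro p hp hpa hbp
        have hp' := mem_erase.1 hp
        have hpb : p ≠ b := hbp.ne.symm
        exact ⟨p, hp'.2, hp'.1, hpa, hpb, ((same' p b hpa hpb).1 hbp).symm⟩
      by_cases hpa : p = a
      · exact gen q hq (fun h => hpq (hpa.trans h.symm)) aq
      · exact gen p hp hpa ap
    have mc : c ∈ D.erase v := mem_erase.2 ⟨hcv, hcD⟩
    have md : d ∈ D.erase v := mem_erase.2 ⟨hdv, hdD⟩
    have ncb : ∀ c ∈ D, c ≠ v → c ≠ a → c ≠ b → G.Adj c a → ¬ G.Adj c b := hα
    have nda : ∀ c ∈ D, c ≠ v → c ≠ a → c ≠ b → G.Adj c b → ¬ G.Adj c a :=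
      fun c h1 h2 h3 h4 h5 h6 => hα c h1 h2 h3 h4 h6 h5
    -- cross adjacency
    have cross : ∀ c ∈ D, ∀ d ∈ D, c ≠ v → c ≠ a → c ≠ b → d ≠ v → d ≠ a → d ≠ b →
        G.Adj c a → G.Adj d b → G.Adj c d := by
      intro c hcD d hdD hcv hca hcb hdv hda hdb ca db
      have := hC d (mem_erase.2 ⟨hdv, hdD⟩) b mb c (mem_erase.2 ⟨hcv, hcD⟩)
        ((same d b hda hdb).2 db)
      rw [same c d hca hcb, same c b hca hcb] at this
      exact this.resolve_right (ncb c hcD hcv hca hcb ca)
    have cd := cross c hcD d hdD hcv hca hcb hdv hda hdb ca db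
    have ncd : c ≠ d := cd.ne
    by_cases h1 : ∃ c' ∈ D, c' ≠ v ∧ c' ≠ a ∧ c' ≠ b ∧ c' ≠ c ∧ G.Adj c' a
    · obtain ⟨c', hcD', hcv', hca', hcb', hcc', ca'⟩ := h1
      left
      have cd' := cross c' hcD' d hdD hcv' hca' hcb' hdv hda hdb ca' db
      have ncc : ¬ G.Adj c c' := by
        intro h
        have := hC c mc c' (mem_erase.2 ⟨hcv', hcD'⟩) b mb ((same c c' hca hcb).2 h)
        rw [same' c b hca hcb, same' c' b hca' hcb'] at this
        rcases this with h2 | h2
        · exact ncb c hcD hcv hca hcb ca h2.symm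
        · exact ncb c' hcD' hcv' hca' hcb' ca' h2.symm
      exact on_c4p (p0 := a) (p1 := c) (p2 := d) (p3 := c') (q := v) (mD a hd.ha) (mD c hcD)
        (mD d hdD) (mD c' hcD') (mD v hd.hv) ca.symm cd cd'.symm ca'.symm
        (fun h => nda d hdD hdv hda hdb db h.symm) ncc hda.symm hcc'.symm hd.va
        (vc c hcD hca hcb) (vc d hdD hda hdb) (vc c' hcD' hca' hcb') hcv.symm hdv.symm hcv'.symm
    by_cases h2 : ∃ d' ∈ D, d' ≠ v ∧ d' ≠ a ∧ d' ≠ b ∧ d' ≠ d ∧ G.Adj d' b
    · obtain ⟨d', hdD', hdv', hda', hdb', hdd', db'⟩ := h2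
      left
      have cd' := cross c hcD d' hdD' hcv hca hcb hdv' hda' hdb' ca db'
      have ndd : ¬ G.Adj d d' := by
        intro h
        have := hC d md d' (mem_erase.2 ⟨hdv', hdD'⟩) a ma ((same d d' hda hdb).2 h)
        rw [same' d a hda hdb, same' d' a hda' hdb'] at this
        rcases this with h2 | h2
        · exact nda d hdD hdv hda hdb db h2.symm
        · exact nda d' hdD' hdv' hda' hdb' db' h2.symm
      exact on_c4p (p0 := b) (p1 := d) (p2 := c) (p3 := d') (q := v) (mD b hd.hb) (mD d hdD)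
        (mD c hcD) (mD d' hdD') (mD v hd.hv) db.symm cd.symm cd' db'.symm
        (fun h => ncb c hcD hcv hca hcb ca h.symm) ndd hcb.symm hdd'.symm hd.vb
        (vc d hdD hda hdb) (vc c hcD hca hcb) (vc d' hdD' hda' hdb') hdv.symm hcv.symm hdv'.symm
    · push Not at h1 h2
      right; right
      have cov : ∀ x ∈ D, x = v ∨ x = a ∨ x = b ∨ x = c ∨ x = d := by
        intro x hx
        by_contra hcon
        push Not at hcon
        obtain ⟨n1, n2, n3, n4, n5⟩ := hcon
        rcases hR x hx n1 n2 n3 with h | h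
        · exact h1 x hx n1 n2 n3 n4 h
        · exact h2 x hx n1 n2 n3 n5 h
      have ad : ¬ G.Adj a d := fun h => nda d hdD hdv hda hdb db h.symm
      have bc : ¬ G.Adj b c := fun h => ncb c hcD hcv hca hcb ca h.symm
      have nvc := vc c hcD hca hcb
      have nvd := vc d hdD hda hdb
      intro x hx
      rcases cov x hx with rfl | rfl | rfl | rfl | rfl
      · exact ⟨a, b, hd⟩
      · refine ⟨v, c, hx, hd.hv, hcD, hcv.symm, hd.va.symm, ca.symm, ?_⟩
        intro y hy hxy
        rcases cov y hy with rfl | rfl | rfl | rfl | rfl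
        · exact Or.inl rfl
        · exact absurd rfl hxy.ne
        · exact absurd hxy hab
        · exact Or.inr rfl
        · exact absurd hxy ad
      · refine ⟨v, d, hx, hd.hv, hdD, hdv.symm, hd.vb.symm, db.symm, ?_⟩
        intro y hy hxy
        rcases cov y hy with rfl | rfl | rfl | rfl | rfl
        · exact Or.inl rfl
        · exact absurd hxy.symm hab
        · exact absurd rfl hxy.ne
        · exact absurd hxy bc
        · exact Or.inr rfl
      · refine ⟨a, d, hx, hd.ha, hdD, hda.symm, ca, cd, ?_⟩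
        intro y hy hxy
        rcases cov y hy with rfl | rfl | rfl | rfl | rfl
        · exact absurd hxy.symm nvc
        · exact Or.inl rfl
        · exact absurd hxy.symm bc
        · exact absurd rfl hxy.ne
        · exact Or.inr rfl
      · refine ⟨b, c, hx, hd.hb, hcD, hcb.symm, db, cd.symm, ?_⟩
        intro y hy hxy
        rcases cov y hy with rfl | rfl | rfl | rfl | rfl
        · exact absurd hxy.symm nvd
        · exact absurd hxy.symm ad
        · exact Or.inl rfl
        · exact Or.inr rfl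
        · exact absurd rfl hxy.ne

theorem paw_two : ∀ n (G : SimpleGraph V) (D : Finset V), D.card ≤ n → TwoC G D →
    On paw G D ∨ CM G D ∨ Cyc G D := by
  refine main_ind CM ?_ paw_G2 paw_G3 paw_G4
  intro G D hK x hx y hy z hz hxy
  by_cases hzx : z = x
  · subst hzx; exact Or.inr hxy
  · exact Or.inl (hK z hz x hx hzx)

end Pool.Agent.Helper917ITM
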