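import Pool.Agent.Helper917_ITM.Unb

/-! Graphs without the five obstructions are induced subgraphs of `P₄`, the paw or the diamond. -/

namespace Pool.Agent.Helper917ITM

open Pool.Agent.H175R2

/-- the path on four vertices `0 1 2 3` -/
abbrev P4path : SimpleGraph (Fin 4) := SimpleGraph.pathGraph 4

/-- adjacency from six Booleans -/
def ad (a b c d e f : Bool) (i j : Fin 4) : Bool :=
  match i.val, j.val with
  | 0, 1 => a | 1, 0 => a | 0, 2 => b | 2, 0 => b | 0, 3 => c | 3, 0 => c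
  | 1, 2 => d | 2, 1 => d | 1, 3 => e | 3, 1 => e | 2, 3 => f | 3, 2 => f | _, _ => false

/-- `P₄` -/
def tP : Fin 4 → Fin 4 → Bool := ad true false false true false true
/-- paw -/
def tW : Fin 4 → Fin 4 → Bool := ad true true true true false false
/-- diamond -/
def tD : Fin 4 → Fin 4 → Bool := ad true true true true true false

lemma tP_eq (i j : Fin 4) : P4path.Adj i j ↔ tP i j = true := by
  rw [SimpleGraph.pathGraph_adj]
  revert i j; decide

lemma tW_eq (i j : Fin 4) : paw.Adj i j ↔ tW i j = true := by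
  simp only [paw, SimpleGraph.fromRel_adj]
  revert i j; decide

lemma tD_eq (i j : Fin 4) : diamond.Adj i j ↔ tD i j = true := by
  simp only [diamond, SimpleGraph.fromRel_adj]
  revert i j; decide

/-- a matching of the four-vertex graph with a target -/
def okf (t : Fin 4 → Fin 4 → Bool) (a b c d e f : Bool) (x y z w : Fin 4) : Bool :=
  (x != y) && (x != z) && (x != w) && (y != z) && (y != w) && (z != w) &&
  (t x y == a) && (t x z == b) && (t x w == c) && (t y z == d) && (t y w == e) && (t z w == f)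

/-- some matching -/
def exf (t : Fin 4 → Fin 4 → Bool) (a b c d e f : Bool) : Bool :=
  [0, 1, 2, 3].any fun x => [0, 1, 2, 3].any fun y => [0, 1, 2, 3].any fun z =>
    [0, 1, 2, 3].any fun w => okf t a b c d e f x y z w

/-- the bad patterns -/
def bad (a b c d e f : Bool) : Bool :=
  -- three independent vertices
  (!a && !b && !d) || (!a && !c && !e) || (!b && !c && !f) || (!d && !e && !f) ||
  -- K4
  (a && b && c && d && e && f) ||
  -- K3 + P1
  (d && e && f && !a && !b && !c) || (b && c && f && !a && !d && !e) ||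
  (a && c && e && !b && !d && !f) || (a && b && d && !c && !e && !f) ||
  -- 2K2
  (a && f && !b && !c && !d && !e) || (b && e && !a && !c && !d && !f) ||
  (c && d && !a && !b && !e && !f) ||
  -- C4
  (!a && !f && b && c && d && e) || (!b && !e && a && c && d && f) ||
  (!c && !d && a && b && e && f)

lemma four_bool : ∀ a b c d e f : Bool, bad a b c d e f = true ∨ exf tP a b c d e f = true ∨
    exf tW a b c d e f = true ∨ exf tD a b c d e f = true := by
  decide

/-- three vertices -/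
def ok3 (a b d : Bool) (x y z : Fin 4) : Bool :=
  (x != y) && (x != z) && (y != z) &&
  (((tP x y == a) && (tP x z == b) && (tP y z == d)) ||
   ((tW x y == a) && (tW x z == b) && (tW y z == d)))

lemma three_bool : ∀ a b d : Bool, (!a && !b && !d) = true ∨ ∃ x y z : Fin 4,
    ok3 a b d x y z = true := by
  decide

lemma two_bool : ∀ a : Bool, ∃ x y : Fin 4, x ≠ y ∧ tP x y = a := by
  decide

variable {W : Type} {H : SimpleGraph W}

/-- embedding from a map of `Fin n` -/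
lemma emb_of {n : ℕ} (e : W ≃ Fin n) (t : Fin 4 → Fin 4 → Bool) (T : SimpleGraph (Fin 4))
    (hT : ∀ i j, T.Adj i j ↔ t i j = true) (f : Fin n → Fin 4) (hf : Function.Injective f)
    (h : ∀ i j : Fin n, i < j → (t (f i) (f j) = true ↔ H.Adj (e.symm i) (e.symm j))) :
    Nonempty (H ↪g T) := by
  refine ⟨⟨⟨fun x => f (e x), hf.comp e.injective⟩, ?_⟩⟩
  intro x y
  simp only [Function.Embedding.coeFn_mk, hT]
  rcases lt_trichotomy (e x) (e y) with hlt | heq | hgt
  · have := h _ _ hlt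
    simpa using this
  · have hxy : x = y := e.injective heq
    subst hxy
    constructor
    · intro h'
      exact absurd ((hT _ _).2 h') (SimpleGraph.irrefl T)
    · intro h'
      exact absurd h' (SimpleGraph.irrefl H)
  · have := h _ _ hgt
    rw [H.adj_comm]
    simp only [Equiv.symm_apply_apply] at this
    rw [← this, ← hT, ← hT, T.adj_comm]

section obst

lemma no_three (h : ¬ P1 H) {x y z : W} (h1 : x ≠ y) (h2 : x ≠ z) (h3 : y ≠ z) (h4 : ¬ H.Adj x y)
    (h5 : ¬ H.Adj x z) (h6 : ¬ H.Adj y z) : False :=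
  h ⟨x, y, z, h1, h2, h3, h4, h5, h6⟩

lemma no_k4 (h : ¬ P4 H) {x y z w : W} (h1 : H.Adj x y) (h2 : H.Adj x z) (h3 : H.Adj x w)
    (h4 : H.Adj y z) (h5 : H.Adj y w) (h6 : H.Adj z w) : False := by
  apply h
  refine ⟨{x, y, z, w}, ![x, y, z, w], ?_, ?_, ?_⟩
  · have := h1.ne; have := h2.ne; have := h3.ne; have := h4.ne; have := h5.ne; have := h6.ne
    intro i j hij
    fin_cases i <;> fin_cases j <;> simp_all
  · intro i
    fin_cases i
    · exact ⟨by simp, y, z, w, by simp, by simp, by simp, h4.ne, h5.ne, h6.ne, h1, h2, h3⟩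
    · exact ⟨by simp, x, z, w, by simp, by simp, by simp, h2.ne, h3.ne, h6.ne, h1.symm, h4, h5⟩
    · exact ⟨by simp, x, y, w, by simp, by simp, by simp, h1.ne, h3.ne, h5.ne, h2.symm, h4.symm, h6⟩
    · exact ⟨by simp, x, y, z, by simp, by simp, by simp, h1.ne, h2.ne, h4.ne, h3.symm, h5.symm,
        h6.symm⟩
  · rintro p hp - - - - - - -
    simp only [Set.mem_insert_iff, Set.mem_singleton_iff] at hp
    rcases hp with rfl | rfl | rfl | rfl
    · exact ⟨0, rfl⟩
    · exact ⟨1, rfl⟩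
    · exact ⟨2, rfl⟩
    · exact ⟨3, rfl⟩

lemma no_k3p1 (h : ¬ P3' H) {v x y z : W} (h1 : H.Adj x y) (h2 : H.Adj x z) (h3 : H.Adj y z)
    (h4 : v ≠ x) (h5 : v ≠ y) (h6 : v ≠ z) (h7 : ¬ H.Adj v x) (h8 : ¬ H.Adj v y)
    (h9 : ¬ H.Adj v z) : False := by
  apply h
  refine ⟨v, {x, y, z}, ⟨x, by simp⟩, ?_, ?_⟩
  · intro w hw
    simp only [Set.mem_insert_iff, Set.mem_singleton_iff] at hw
    rcases hw with rfl | rfl | rfl
    · exact ⟨h4.symm, h7⟩
    · exact ⟨h5.symm, h8⟩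
    · exact ⟨h6.symm, h9⟩
  · intro w hw
    simp only [Set.mem_insert_iff, Set.mem_singleton_iff] at hw
    rcases hw with rfl | rfl | rfl
    · exact ⟨y, z, by simp, by simp, h3.ne, h1, h2⟩
    · exact ⟨x, z, by simp, by simp, h2.ne, h1.symm, h3⟩
    · exact ⟨x, y, by simp, by simp, h1.ne, h2.symm, h3.symm⟩

lemma no_2k2 (h : ¬ P2 H) {x y z w : W} (h1 : H.Adj x y) (h2 : H.Adj z w) (h3 : ¬ H.Adj x z)
    (h4 : ¬ H.Adj x w) (h5 : ¬ H.Adj y z) (h6 : ¬ H.Adj y w) (h7 : x ≠ z) (h8 : x ≠ w)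
    (h9 : y ≠ z) (h10 : y ≠ w) : False := by
  apply h
  rintro ⟨K, k1, k2⟩
  have e1 : x ∈ K ∨ y ∈ K := by
    by_contra hc
    push Not at hc
    exact k2 x hc.1 y hc.2 h1
  have e2 : z ∈ K ∨ w ∈ K := by
    by_contra hc
    push Not at hc
    exact k2 z hc.1 w hc.2 h2
  rcases e1 with e1 | e1 <;> rcases e2 with e2 | e2
  · exact h3 (k1 _ e1 _ e2 h7)
  · exact h4 (k1 _ e1 _ e2 h8)
  · exact h5 (k1 _ e1 _ e2 h9)
  · exact h6 (k1 _ e1 _ e2 h10)

/-- no induced four-cycle `x y z w` -/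
lemma no_c4 (h : ¬ P2 H) {x y z w : W} (h1 : H.Adj x y) (h2 : H.Adj y z) (h3 : H.Adj z w)
    (h4 : H.Adj x w) (h5 : ¬ H.Adj x z) (h6 : ¬ H.Adj y w) (h7 : x ≠ z) (h8 : y ≠ w) : False := by
  apply h
  rintro ⟨K, k1, k2⟩
  by_cases hx : x ∈ K
  · have hz : z ∉ K := fun hz => h5 (k1 _ hx _ hz h7)
    have hy : y ∈ K := by
      by_contra hy
      exact k2 _ hz _ hy h2.symm
    have hw : w ∈ K := by
      by_contra hw
      exact k2 _ hz _ hw h3
    exact h6 (k1 _ hy _ hw h8)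
  · have hy : y ∈ K := by
      by_contra hy
      exact k2 _ hx _ hy h1
    have hw : w ∈ K := by
      by_contra hw
      exact k2 _ hx _ hw h4
    exact h6 (k1 _ hy _ hw h8)

lemma no_five (h : ¬ P5 H) {v x y z w : W} (h1 : H.Adj v x) (h2 : H.Adj v y) (h3 : H.Adj v z)
    (h4 : H.Adj v w) (n1 : x ≠ y) (n2 : x ≠ z) (n3 : x ≠ w) (n4 : y ≠ z) (n5 : y ≠ w)
    (n6 : z ≠ w) : False := by
  apply h
  refine ⟨v, ![x, y, z, w], ?_, ?_⟩
  · intro i j hij
    fin_cases i <;> fin_cases j <;> simp_all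
  · intro i
    fin_cases i
    · exact h1
    · exact h2
    · exact h3
    · exact h4

end obst

open Classical in
/-- at most four vertices -/
lemma card_le_four [Fintype W] (h1 : ¬ P1 H) (h2 : ¬ P2 H) (h3 : ¬ P3' H) (h4 : ¬ P4 H)
    (h5 : ¬ P5 H) : Fintype.card W ≤ 4 := by
  unfold P2 at h2
  push Not at h2
  obtain ⟨K, k1, k2⟩ := h2
  set A : Finset W := Finset.univ.filter (· ∈ K) with hA
  set B : Finset W := Finset.univ.filter (· ∉ K) with hB
  have hcard : A.card + B.card = Fintype.card W := by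
    rw [hA, hB, Finset.card_filter_add_card_filter_not]; rfl
  have hB2 : B.card ≤ 2 := by
    by_contra hc
    push Not at hc
    rw [Finset.two_lt_card] at hc
    obtain ⟨a, ha, b, hb, c, hc, n1, n2, n3⟩ := hc
    simp only [hB, Finset.mem_filter, Finset.mem_univ, true_and] at ha hb hc
    exact no_three h1 n1 n2 n3 (k2 _ ha _ hb) (k2 _ ha _ hc) (k2 _ hb _ hc)
  have hA3 : A.card ≤ 3 := by
    by_contra hc
    push Not at hc
    obtain ⟨a, ha⟩ : A.Nonempty := Finset.card_pos.1 (by omega)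
    have hc2 : 2 < (A.erase a).card := by rw [Finset.card_erase_of_mem ha]; omega
    rw [Finset.two_lt_card] at hc2
    obtain ⟨x, hx, y, hy, z, hz, n1, n2, n3⟩ := hc2
    simp only [hA, Finset.mem_erase, Finset.mem_filter, Finset.mem_univ, true_and] at ha hx hy hz
    exact no_k4 h4 (k1 _ ha _ hx.2 (Ne.symm hx.1)) (k1 _ ha _ hy.2 (Ne.symm hy.1))
      (k1 _ ha _ hz.2 (Ne.symm hz.1)) (k1 _ hx.2 _ hy.2 n1) (k1 _ hx.2 _ hz.2 n2)
      (k1 _ hy.2 _ hz.2 n3)
  by_contra hcon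
  push Not at hcon
  have eA : A.card = 3 := by omega
  have eB : B.card = 2 := by omega
  obtain ⟨a, b, c, nab, nac, nbc, hAe⟩ := Finset.card_eq_three.1 eA
  obtain ⟨x, y, nxy, hBe⟩ := Finset.card_eq_two.1 eB
  have hA' : ∀ z, z ∈ K ↔ z = a ∨ z = b ∨ z = c := by
    intro z
    have : z ∈ A ↔ z = a ∨ z = b ∨ z = c := by rw [hAe]; simp
    rw [← this]; simp [hA]
  have hB' : ∀ z, z ∉ K ↔ z = x ∨ z = y := by
    intro z
    have : z ∈ B ↔ z = x ∨ z = y := by rw [hBe]; simp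
    rw [← this]; simp [hB]
  have ka : a ∈ K := (hA' a).2 (by simp)
  have kb : b ∈ K := (hA' b).2 (by simp)
  have kc : c ∈ K := (hA' c).2 (by simp)
  have kx : x ∉ K := (hB' x).2 (by simp)
  have ky : y ∉ K := (hB' y).2 (by simp)
  have nxa : x ≠ a := by rintro rfl; exact kx ka
  have nxb : x ≠ b := by rintro rfl; exact kx kb
  have nxc : x ≠ c := by rintro rfl; exact kx kc
  have nya : y ≠ a := by rintro rfl; exact ky ka
  have nyb : y ≠ b := by rintro rfl; exact ky kb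
  have nyc : y ≠ c := by rintro rfl; exact ky kc
  have ab := k1 _ ka _ kb nab
  have ac := k1 _ ka _ kc nac
  have bc := k1 _ kb _ kc nbc
  have xy := k2 _ kx _ ky
  -- each clique vertex is adjacent to exactly one of `x`, `y`
  have one : ∀ p q r, p ∈ K → q ∈ K → r ∈ K → p ≠ q → p ≠ r → q ≠ r →
      (H.Adj p x ∧ ¬ H.Adj p y) ∨ (¬ H.Adj p x ∧ H.Adj p y) := by
    intro p q r hp hq hr n1 n2 n3
    have m : ∀ z w, z ∈ K → w ∉ K → z ≠ w := by rintro z w h1 h2 rfl; exact h2 h1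
    by_cases e1 : H.Adj p x <;> by_cases e2 : H.Adj p y
    · exact absurd (no_five h5 (k1 _ hp _ hq n1) (k1 _ hp _ hr n2) e1 e2 n3 (m _ _ hq kx)
        (m _ _ hq ky) (m _ _ hr kx) (m _ _ hr ky) nxy) id
    · exact Or.inl ⟨e1, e2⟩
    · exact Or.inr ⟨e1, e2⟩
    · exact absurd (no_three h1 (m _ _ hp kx) (m _ _ hp ky) nxy e1 e2 xy) id
  have oa := one a b c ka kb kc nab nac nbc
  have ob := one b a c kb ka kc nab.symm nbc nac
  have oc := one c a b kc ka kb nac.symm nbc.symm nab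
  -- final contradiction
  have k3 : ∀ {p q r v : W}, H.Adj p q → H.Adj p r → H.Adj q r → v ≠ p → v ≠ q → v ≠ r →
      ¬ H.Adj p v → ¬ H.Adj q v → ¬ H.Adj r v → False := by
    intro p q r v a1 a2 a3 n1 n2 n3 b1 b2 b3
    exact no_k3p1 h3 a1 a2 a3 n1 n2 n3 (fun h => b1 h.symm) (fun h => b2 h.symm)
      (fun h => b3 h.symm)
  have yx : ¬ H.Adj y x := fun h => xy h.symm
  rcases oa with ⟨a1, a2⟩ | ⟨a1, a2⟩ <;> rcases ob with ⟨b1, b2⟩ | ⟨b1, b2⟩ <;>
    rcases oc with ⟨c1, c2⟩ | ⟨c1, c2⟩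
  · exact k3 ab ac bc nya nyb nyc a2 b2 c2
  · exact k3 (v := y) ab a1 b1 nya nyb nxy.symm a2 b2 xy
  · exact k3 (v := y) ac a1 c1 nya nyc nxy.symm a2 c2 xy
  · exact k3 (v := x) bc b2 c2 nxb nxc nxy b1 c1 yx
  · exact k3 (v := y) bc b1 c1 nyb nyc nxy.symm b2 c2 xy
  · exact k3 (v := x) ac a2 c2 nxa nxc nxy a1 c1 yx
  · exact k3 (v := x) ab a2 b2 nxa nxb nxy a1 b1 yx
  · exact k3 ab ac bc nxa nxb nxc a1 b1 c1

open Classical in
theorem classify_small [Finite W] (h1 : ¬ P1 H) (h2 : ¬ P2 H) (h3 : ¬ P3' H) (h4 : ¬ P4 H)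
    (h5 : ¬ P5 H) : Nonempty (H ↪g P4path) ∨ Nonempty (H ↪g paw) ∨ Nonempty (H ↪g diamond) := by
  have : Fintype W := Fintype.ofFinite W
  have hc := card_le_four h1 h2 h3 h4 h5
  obtain ⟨n, ⟨e⟩⟩ : ∃ n, Nonempty (W ≃ Fin n) := ⟨_, ⟨Fintype.equivFin W⟩⟩
  have hn : n ≤ 4 := by
    have := Fintype.card_congr e
    rw [Fintype.card_fin] at this; omega
  interval_cases n
  · left
    exact emb_of e tP _ tP_eq (fun i => i.elim0) (fun i => i.elim0) (fun i => i.elim0)
  · left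
    refine emb_of e tP _ tP_eq (fun _ => 0) (fun i j _ => Subsingleton.elim _ _) ?_
    intro i j hij
    exact absurd hij (by rw [Subsingleton.elim i j]; exact lt_irrefl _)
  · left
    obtain ⟨x, y, hxy, ha⟩ := two_bool (decide (H.Adj (e.symm 0) (e.symm 1)))
    refine emb_of e tP _ tP_eq ![x, y] ?_ ?_
    · intro i j hij
      fin_cases i <;> fin_cases j <;> simp_all
    · intro i j hij
      fin_cases i <;> fin_cases j <;> simp_all
  · rcases three_bool (decide (H.Adj (e.symm 0) (e.symm 1))) (decide (H.Adj (e.symm 0) (e.symm 2)))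
      (decide (H.Adj (e.symm 1) (e.symm 2))) with hb | ⟨x, y, z, h⟩
    · exfalso
      simp only [Bool.and_eq_true, Bool.not_eq_true', decide_eq_false_iff_not] at hb
      exact no_three h1 (e.symm.injective.ne (by decide)) (e.symm.injective.ne (by decide))
        (e.symm.injective.ne (by decide)) hb.1.1 hb.1.2 hb.2
    · simp only [ok3, Bool.and_eq_true, Bool.or_eq_true, bne_iff_ne, beq_iff_eq] at h
      obtain ⟨⟨⟨n1, n2⟩, n3⟩, h | h⟩ := h
      · left
        refine emb_of e tP _ tP_eq ![x, y, z] ?_ ?_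
        · intro i j hij
          fin_cases i <;> fin_cases j <;> simp_all
        · intro i j hij
          fin_cases i <;> fin_cases j <;> simp_all
      · right; left
        refine emb_of e tW _ tW_eq ![x, y, z] ?_ ?_
        · intro i j hij
          fin_cases i <;> fin_cases j <;> simp_all
        · intro i j hij
          fin_cases i <;> fin_cases j <;> simp_all
  · set v0 := e.symm 0 with hv0
    set v1 := e.symm 1 with hv1
    set v2 := e.symm 2 with hv2
    set v3 := e.symm 3 with hv3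
    have n01 : v0 ≠ v1 := e.symm.injective.ne (by decide)
    have n02 : v0 ≠ v2 := e.symm.injective.ne (by decide)
    have n03 : v0 ≠ v3 := e.symm.injective.ne (by decide)
    have n12 : v1 ≠ v2 := e.symm.injective.ne (by decide)
    have n13 : v1 ≠ v3 := e.symm.injective.ne (by decide)
    have n23 : v2 ≠ v3 := e.symm.injective.ne (by decide)
    have fin : ∀ (t : Fin 4 → Fin 4 → Bool) (T : SimpleGraph (Fin 4))
        (_ : ∀ i j, T.Adj i j ↔ t i j = true),
        exf t (decide (H.Adj v0 v1)) (decide (H.Adj v0 v2)) (decide (H.Adj v0 v3))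
          (decide (H.Adj v1 v2)) (decide (H.Adj v1 v3)) (decide (H.Adj v2 v3)) = true →
        Nonempty (H ↪g T) := by
      intro t T hT h
      simp only [exf, List.any_eq_true] at h
      obtain ⟨x, _, y, _, z, _, w, _, h⟩ := h
      simp only [okf, Bool.and_eq_true, bne_iff_ne, beq_iff_eq] at h
      obtain ⟨⟨⟨⟨⟨⟨⟨⟨⟨⟨⟨m1, m2⟩, m3⟩, m4⟩, m5⟩, m6⟩, g1⟩, g2⟩, g3⟩, g4⟩, g5⟩, g6⟩ := h
      refine emb_of e t T hT ![x, y, z, w] ?_ ?_
      · intro i j hij
        fin_cases i <;> fin_cases j <;> simp_all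
      · intro i j hij
        fin_cases i <;> fin_cases j <;> simp_all
    rcases four_bool (decide (H.Adj v0 v1)) (decide (H.Adj v0 v2)) (decide (H.Adj v0 v3))
      (decide (H.Adj v1 v2)) (decide (H.Adj v1 v3)) (decide (H.Adj v2 v3)) with hb | hb | hb | hb
    · exfalso
      simp only [bad, Bool.or_eq_true, Bool.and_eq_true, Bool.not_eq_true', decide_eq_false_iff_not,
        decide_eq_true_eq, or_assoc, and_assoc] at hb
      have sy : ∀ a b, ¬ H.Adj a b → ¬ H.Adj b a := fun a b h h' => h h'.symm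
      rcases hb with ⟨a1, a2, a3⟩ | ⟨a1, a2, a3⟩ | ⟨a1, a2, a3⟩ | ⟨a1, a2, a3⟩ |
        ⟨a1, a2, a3, a4, a5, a6⟩ | ⟨a1, a2, a3, a4, a5, a6⟩ | ⟨a1, a2, a3, a4, a5, a6⟩ |
        ⟨a1, a2, a3, a4, a5, a6⟩ | ⟨a1, a2, a3, a4, a5, a6⟩ | ⟨a1, a2, a3, a4, a5, a6⟩ |
        ⟨a1, a2, a3, a4, a5, a6⟩ | ⟨a1, a2, a3, a4, a5, a6⟩ | ⟨a1, a2, a3, a4, a5, a6⟩ |
        ⟨a1, a2, a3, a4, a5, a6⟩ | ⟨a1, a2, a3, a4, a5, a6⟩
      · exact no_three h1 n01 n02 n12 a1 a2 a3
      · exact no_three h1 n01 n03 n13 a1 a2 a3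
      · exact no_three h1 n02 n03 n23 a1 a2 a3
      · exact no_three h1 n12 n13 n23 a1 a2 a3
      · exact no_k4 h4 a1 a2 a3 a4 a5 a6
      · exact no_k3p1 h3 a1 a2 a3 n01 n02 n03 a4 a5 a6
      · exact no_k3p1 h3 (v := v1) a1 a2 a3 n01.symm n12 n13 (sy _ _ a4) a5 a6
      · exact no_k3p1 h3 (v := v2) a1 a2 a3 n02.symm n12.symm n23 (sy _ _ a4) (sy _ _ a5) a6
      · exact no_k3p1 h3 (v := v3) a1 a2 a3 n03.symm n13.symm n23.symm (sy _ _ a4) (sy _ _ a5)
          (sy _ _ a6)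
      · exact no_2k2 h2 a1 a2 a3 a4 a5 a6 n02 n03 n12 n13
      · exact no_2k2 h2 a1 a2 a3 a4 (sy _ _ a5) a6 n01 n03 n12.symm n23
      · exact no_2k2 h2 a1 a2 a3 a4 (sy _ _ a5) (sy _ _ a6) n01 n02 n13.symm n23.symm
      · exact no_c4 h2 (x := v0) (y := v2) (z := v1) (w := v3) a3 a5.symm a6 a4 a1 a2 n01 n23
      · exact no_c4 h2 (x := v0) (y := v1) (z := v2) (w := v3) a3 a5 a6 a4 a1 a2 n02 n13
      · exact no_c4 h2 (x := v0) (y := v1) (z := v3) (w := v2) a3 a5 a6.symm a4 a1 a2 n03 n12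
    · exact Or.inl (fin _ _ tP_eq hb)
    · exact Or.inr (Or.inl (fin _ _ tW_eq hb))
    · exact Or.inr (Or.inr (fin _ _ tD_eq hb))

end Pool.Agent.Helper917ITM
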