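import Pool.Agent.H175R2.Defs

/-! Definitions for MP_d0d08e_co: clique-width of `H`-induced-topological-minor-free graphs.
Clique-width, the paw and the diamond are those of `Pool.Agent.H175R2`. -/

namespace Pool.Agent.Helper917ITM

open Pool.Agent.H175R2

/-- Subdivision of the edge `uv` of `G`: the edge `uv` is removed and a new vertex `none` is
joined to `u` and to `v`. -/
def subdivideEdge {V : Type} (G : SimpleGraph V) (u v : V) : SimpleGraph (Option V) :=
  SimpleGraph.fromRel (fun x y =>
    (∃ a b, x = some a ∧ y = some b ∧ G.Adj a b ∧ ¬ (a = u ∧ b = v) ∧ ¬ (a = v ∧ b = u)) ∨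
    (x = none ∧ (y = some u ∨ y = some v)))

/-- `Subdivision H S`: `S` is (isomorphic to) a subdivision of `H`, that is, a graph obtained from
`H` by zero or more edge subdivisions. -/
inductive Subdivision : ∀ {V W : Type}, SimpleGraph V → SimpleGraph W → Prop
  | iso {V W : Type} {H : SimpleGraph V} {S : SimpleGraph W} (e : H ≃g S) : Subdivision H S
  | step {V W : Type} {H : SimpleGraph V} {S : SimpleGraph W} {u v : V} (huv : H.Adj u v)
      (h : Subdivision (subdivideEdge H u v) S) : Subdivision H S

/-- `H` is an induced topological minor of `G`: some induced subgraph of `G` is isomorphic to a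
subdivision of `H`. -/
def IsITM {W V : Type} (H : SimpleGraph W) (G : SimpleGraph V) : Prop :=
  ∃ s : Set V, Subdivision H (G.induce s)

/-- The `H`-induced-topological-minor-free finite graphs have bounded clique-width. -/
def BddITM {W : Type} (H : SimpleGraph W) : Prop :=
  ∃ c : ℕ, ∀ (V : Type) [Finite V] (G : SimpleGraph V), ¬ IsITM H G → cliqueWidth G ≤ c

end Pool.Agent.Helper917ITM
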