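import Pool.Agent.Helper917_ITM.Subdiv

/-! Properties preserved by subdivision. -/

namespace Pool.Agent.Helper917ITM

open Pool.Agent.H175R2

variable {V W U : Type}

lemma Subdivision.inv {P : ∀ {V : Type}, SimpleGraph V → Prop}
    (hiso : ∀ {V W : Type} {G : SimpleGraph V} {G' : SimpleGraph W}, (G ≃g G') → P G → P G')
    (hstep : ∀ {V : Type} {G : SimpleGraph V} {u v : V}, G.Adj u v → P G → P (subdivideEdge G u v))
    {H : SimpleGraph V} {S : SimpleGraph W} (h : Subdivision H S) : P H → P S := by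
  induction h with
  | iso e => exact hiso e
  | step huv _ ih => exact fun hp => ih (hstep huv hp)

/-- three independent vertices -/
def P1 {V : Type} (G : SimpleGraph V) : Prop :=
  ∃ x y z, x ≠ y ∧ x ≠ z ∧ y ≠ z ∧ ¬ G.Adj x y ∧ ¬ G.Adj x z ∧ ¬ G.Adj y z

/-- not split -/
def P2 {V : Type} (G : SimpleGraph V) : Prop :=
  ¬ ∃ K : Set V, (∀ x ∈ K, ∀ y ∈ K, x ≠ y → G.Adj x y) ∧ (∀ x ∉ K, ∀ y ∉ K, ¬ G.Adj x y)

/-- a cycle in a nonneighbourhood -/
def P3' {V : Type} (G : SimpleGraph V) : Prop :=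
  ∃ v, ∃ C : Set V, C.Nonempty ∧ (∀ x ∈ C, x ≠ v ∧ ¬ G.Adj v x) ∧
    ∀ x ∈ C, ∃ y z, y ∈ C ∧ z ∈ C ∧ y ≠ z ∧ G.Adj x y ∧ G.Adj x z

/-- K4-like -/
def P4 {V : Type} (G : SimpleGraph V) : Prop :=
  ∃ (X : Set V) (b : Fin 4 → V), Function.Injective b ∧
    (∀ i, b i ∈ X ∧ ∃ y z w, y ∈ X ∧ z ∈ X ∧ w ∈ X ∧ y ≠ z ∧ y ≠ w ∧ z ≠ w ∧
      G.Adj (b i) y ∧ G.Adj (b i) z ∧ G.Adj (b i) w) ∧
    ∀ x ∈ X, ∀ y ∈ X, ∀ z ∈ X, G.Adj x y → G.Adj x z → G.Adj y z → ∃ i, b i = x

/-- a vertex with four neighbours -/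
def P5 {V : Type} (G : SimpleGraph V) : Prop :=
  ∃ (x : V) (b : Fin 4 → V), Function.Injective b ∧ ∀ i, G.Adj x (b i)

section phi
open Classical

/-- the neighbour replacing `y` at `x` after subdivision of `uv` -/
noncomputable def phi (u v x y : V) : Option V :=
  if (x = u ∧ y = v) ∨ (x = v ∧ y = u) then none else some y

lemma phi_adj {G : SimpleGraph V} {u v x y : V} (h : G.Adj x y) :
    (subdivideEdge G u v).Adj (some x) (phi u v x y) := by
  unfold phi
  split_ifs with h1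
  · rw [sub_some_none]
    tauto
  · rw [sub_some_some]
    refine ⟨h, fun h2 => h1 (Or.inl h2), fun h2 => h1 (Or.inr h2)⟩

lemma phi_inj {u v x y y' : V} (huv : u ≠ v) (h : phi u v x y = phi u v x y') : y = y' := by
  unfold phi at h
  split_ifs at h with h1 h2 h2
  · rcases h1 with h1 | h1 <;> rcases h2 with h2 | h2
    · rw [h1.2, h2.2]
    · exact absurd (h1.1.symm.trans h2.1) huv
    · exact absurd (h2.1.symm.trans h1.1) huv
    · rw [h1.2, h2.2]
  · exact Option.some_injective _ h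

/-- the extended set -/
def ext (u v : V) (X : Set V) : Set (Option V) :=
  {w | (w = none ∧ u ∈ X ∧ v ∈ X) ∨ ∃ x ∈ X, w = some x}

lemma phi_mem {u v x y : V} {X : Set V} (hx : x ∈ X) (hy : y ∈ X) : phi u v x y ∈ ext u v X := by
  unfold phi
  split_ifs with h1
  · left
    rcases h1 with ⟨rfl, rfl⟩ | ⟨rfl, rfl⟩
    · exact ⟨rfl, hx, hy⟩
    · exact ⟨rfl, hy, hx⟩
  · exact Or.inr ⟨y, hy, rfl⟩

end phi

theorem P1_sub {H : SimpleGraph V} {S : SimpleGraph W} (h : Subdivision H S) (hP : P1 H) :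
    P1 S := by
  refine Subdivision.inv (P := @P1) ?_ ?_ h hP
  · rintro V W G G' e ⟨x, y, z, h1, h2, h3, h4, h5, h6⟩
    refine ⟨e x, e y, e z, e.injective.ne h1, e.injective.ne h2, e.injective.ne h3, ?_, ?_, ?_⟩ <;>
      rwa [e.map_adj_iff]
  · rintro V G u v huv ⟨x, y, z, h1, h2, h3, h4, h5, h6⟩
    refine ⟨some x, some y, some z, ?_, ?_, ?_, ?_, ?_, ?_⟩
    · simpa using h1
    · simpa using h2
    · simpa using h3
    · rw [sub_some_some]; exact fun h => h4 h.1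
    · rw [sub_some_some]; exact fun h => h5 h.1
    · rw [sub_some_some]; exact fun h => h6 h.1

theorem P2_sub {H : SimpleGraph V} {S : SimpleGraph W} (h : Subdivision H S) (hP : P2 H) :
    P2 S := by
  refine Subdivision.inv (P := @P2) ?_ ?_ h hP
  · rintro V W G G' e hG ⟨K, h1, h2⟩
    refine hG ⟨e ⁻¹' K, fun x hx y hy hne => ?_, fun x hx y hy => ?_⟩
    · rw [← e.map_adj_iff]; exact h1 _ hx _ hy (e.injective.ne hne)
    · rw [← e.map_adj_iff]; exact h2 _ hx _ hy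
  · rintro V G u v huv hG ⟨K, h1, h2⟩
    apply hG
    by_cases hn : none ∈ K
    · -- the new vertex is in the clique
      by_cases hu : some u ∈ K
      · have hv : some v ∉ K := by
          intro hv
          have := h1 _ hu _ hv (by simpa using huv.ne)
          rw [sub_some_some] at this
          exact this.2.1 ⟨rfl, rfl⟩
        refine ⟨some ⁻¹' K, fun x hx y hy hne => ?_, fun x hx y hy hxy => ?_⟩
        · exact (sub_some_some.1 (h1 _ hx _ hy (by simpa using hne))).1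
        · refine h2 _ hx _ hy (sub_some_some.2 ⟨hxy, ?_, ?_⟩)
          · rintro ⟨rfl, rfl⟩; exact hx hu
          · rintro ⟨rfl, rfl⟩; exact hy hu
      · by_cases hv : some v ∈ K
        · refine ⟨some ⁻¹' K, fun x hx y hy hne => ?_, fun x hx y hy hxy => ?_⟩
          · exact (sub_some_some.1 (h1 _ hx _ hy (by simpa using hne))).1
          · refine h2 _ hx _ hy (sub_some_some.2 ⟨hxy, ?_, ?_⟩)
            · rintro ⟨rfl, rfl⟩; exact hy hv
            · rintro ⟨rfl, rfl⟩; exact hx hv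
        · -- the clique is the new vertex alone
          have hK : ∀ x, some x ∉ K := by
            intro x hx
            have := h1 _ hn _ hx (by simp)
            rw [sub_none_some] at this
            rcases this with rfl | rfl
            · exact hu hx
            · exact hv hx
          refine ⟨{u}, fun x hx y hy hne => ?_, fun x hx y hy hxy => ?_⟩
          · simp only [Set.mem_singleton_iff] at hx hy
            exact absurd (hx.trans hy.symm) hne
          · simp only [Set.mem_singleton_iff] at hx hy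
            exact h2 _ (hK x) _ (hK y) (sub_some_some.2 ⟨hxy, fun h => hx h.1, fun h => hy h.2⟩)
    · have hu : some u ∈ K := by
        by_contra hu
        exact h2 _ hu _ hn (sub_some_none.2 (Or.inl rfl))
      have hv : some v ∈ K := by
        by_contra hv
        exact h2 _ hv _ hn (sub_some_none.2 (Or.inr rfl))
      exfalso
      have := h1 _ hu _ hv (by simpa using huv.ne)
      rw [sub_some_some] at this
      exact this.2.1 ⟨rfl, rfl⟩

theorem P3_sub {H : SimpleGraph V} {S : SimpleGraph W} (h : Subdivision H S) (hP : P3' H) :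
    P3' S := by
  refine Subdivision.inv (P := @P3') ?_ ?_ h hP
  · rintro V W G G' e ⟨v, C, ⟨c, hc⟩, h1, h2⟩
    refine ⟨e v, e '' C, ⟨e c, c, hc, rfl⟩, ?_, ?_⟩
    · rintro _ ⟨x, hx, rfl⟩
      exact ⟨e.injective.ne (h1 x hx).1, by rw [e.map_adj_iff]; exact (h1 x hx).2⟩
    · rintro _ ⟨x, hx, rfl⟩
      obtain ⟨y, z, hy, hz, hyz, h3, h4⟩ := h2 x hx
      exact ⟨e y, e z, ⟨y, hy, rfl⟩, ⟨z, hz, rfl⟩, e.injective.ne hyz, e.map_adj_iff.2 h3,
        e.map_adj_iff.2 h4⟩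
  · rintro V G u v huv ⟨w, C, ⟨c, hc⟩, h1, h2⟩
    refine ⟨some w, ext u v C, ⟨some c, Or.inr ⟨c, hc, rfl⟩⟩, ?_, ?_⟩
    · rintro _ (⟨rfl, hu, hv⟩ | ⟨x, hx, rfl⟩)
      · refine ⟨by simp, ?_⟩
        rw [sub_some_none]
        rintro (rfl | rfl)
        · exact (h1 _ hu).1 rfl
        · exact (h1 _ hv).1 rfl
      · refine ⟨by simpa using (h1 x hx).1, ?_⟩
        rw [sub_some_some]
        exact fun h => (h1 x hx).2 h.1
    · rintro _ (⟨rfl, hu, hv⟩ | ⟨x, hx, rfl⟩)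
      · exact ⟨some u, some v, Or.inr ⟨u, hu, rfl⟩, Or.inr ⟨v, hv, rfl⟩, by simpa using huv.ne,
          sub_none_some.2 (Or.inl rfl), sub_none_some.2 (Or.inr rfl)⟩
      · obtain ⟨y, z, hy, hz, hyz, h3, h4⟩ := h2 x hx
        exact ⟨phi u v x y, phi u v x z, phi_mem hx hy, phi_mem hx hz,
          fun h => hyz (phi_inj huv.ne h), phi_adj h3, phi_adj h4⟩

theorem P4_sub {H : SimpleGraph V} {S : SimpleGraph W} (h : Subdivision H S) (hP : P4 H) :
    P4 S := by
  refine Subdivision.inv (P := @P4) ?_ ?_ h hP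
  · rintro V W G G' e ⟨X, b, hb, h1, h2⟩
    refine ⟨e '' X, e ∘ b, e.injective.comp hb, ?_, ?_⟩
    · intro i
      obtain ⟨h3, y, z, w, hy, hz, hw, n1, n2, n3, a1, a2, a3⟩ := h1 i
      exact ⟨⟨_, h3, rfl⟩, e y, e z, e w, ⟨_, hy, rfl⟩, ⟨_, hz, rfl⟩, ⟨_, hw, rfl⟩,
        e.injective.ne n1, e.injective.ne n2, e.injective.ne n3, e.map_adj_iff.2 a1,
        e.map_adj_iff.2 a2, e.map_adj_iff.2 a3⟩
    · rintro _ ⟨x, hx, rfl⟩ _ ⟨y, hy, rfl⟩ _ ⟨z, hz, rfl⟩ a1 a2 a3
      rw [e.map_adj_iff] at a1 a2 a3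
      obtain ⟨i, hi⟩ := h2 x hx y hy z hz a1 a2 a3
      exact ⟨i, by simp [hi]⟩
  · rintro V G u v huv ⟨X, b, hb, h1, h2⟩
    refine ⟨ext u v X, some ∘ b, (Option.some_injective _).comp hb, ?_, ?_⟩
    · intro i
      obtain ⟨h3, y, z, w, hy, hz, hw, n1, n2, n3, a1, a2, a3⟩ := h1 i
      exact ⟨Or.inr ⟨_, h3, rfl⟩, phi u v (b i) y, phi u v (b i) z, phi u v (b i) w,
        phi_mem h3 hy, phi_mem h3 hz, phi_mem h3 hw, fun h => n1 (phi_inj huv.ne h),
        fun h => n2 (phi_inj huv.ne h), fun h => n3 (phi_inj huv.ne h), phi_adj a1, phi_adj a2,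
        phi_adj a3⟩
    · have nn : ∀ y z : V, (subdivideEdge G u v).Adj none (some y) →
          (subdivideEdge G u v).Adj none (some z) → ¬ (subdivideEdge G u v).Adj (some y) (some z) := by
        intro y z hy hz hyz
        rw [sub_none_some] at hy hz
        rw [sub_some_some] at hyz
        rcases hy with rfl | rfl <;> rcases hz with rfl | rfl
        · exact hyz.1.ne rfl
        · exact hyz.2.1 ⟨rfl, rfl⟩
        · exact hyz.2.2 ⟨rfl, rfl⟩
        · exact hyz.1.ne rfl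
      rintro (_ | x) hx (_ | y) hy (_ | z) hz a1 a2 a3
      · exact absurd rfl a1.ne
      · exact absurd rfl a1.ne
      · exact absurd rfl a2.ne
      · exact absurd a3 (nn y z a1 a2)
      · exact absurd rfl a3.ne
      · exact absurd a2 (nn x z a1.symm a3)
      · exact absurd a1 (nn x y a2.symm a3.symm)
      · have mem : ∀ x : V, some x ∈ ext u v X → x ∈ X := by
          rintro x (⟨h, _⟩ | ⟨x', hx', h⟩)
          · exact absurd h (by simp)
          · rw [Option.some_injective _ h]; exact hx'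
        obtain ⟨i, hi⟩ := h2 x (mem x hx) y (mem y hy) z (mem z hz) (sub_some_some.1 a1).1
          (sub_some_some.1 a2).1 (sub_some_some.1 a3).1
        exact ⟨i, by simp [hi]⟩

theorem P5_sub {H : SimpleGraph V} {S : SimpleGraph W} (h : Subdivision H S) (hP : P5 H) :
    P5 S := by
  refine Subdivision.inv (P := @P5) ?_ ?_ h hP
  · rintro V W G G' e ⟨x, b, hb, h1⟩
    exact ⟨e x, e ∘ b, e.injective.comp hb, fun i => e.map_adj_iff.2 (h1 i)⟩
  · rintro V G u v huv ⟨x, b, hb, h1⟩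
    exact ⟨some x, fun i => phi u v x (b i), fun i j h => hb (phi_inj huv.ne h),
      fun i => phi_adj (h1 i)⟩

/-! passing from an induced subgraph to the graph -/

theorem P1_up {G : SimpleGraph V} {s : Set V} (h : P1 (G.induce s)) : P1 G := by
  obtain ⟨x, y, z, h1, h2, h3, h4, h5, h6⟩ := h
  exact ⟨x, y, z, fun h => h1 (Subtype.ext h), fun h => h2 (Subtype.ext h),
    fun h => h3 (Subtype.ext h), h4, h5, h6⟩

theorem P2_up {G : SimpleGraph V} {s : Set V} (h : P2 (G.induce s)) : P2 G := by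
  rintro ⟨K, h1, h2⟩
  refine h ⟨Subtype.val ⁻¹' K, fun x hx y hy hne => ?_, fun x hx y hy => ?_⟩
  · exact h1 _ hx _ hy (fun h => hne (Subtype.ext h))
  · exact h2 _ hx _ hy

theorem P3_up {G : SimpleGraph V} {s : Set V} (h : P3' (G.induce s)) : P3' G := by
  obtain ⟨v, C, ⟨c, hc⟩, h1, h2⟩ := h
  refine ⟨v, Subtype.val '' C, ⟨c, c, hc, rfl⟩, ?_, ?_⟩
  · rintro _ ⟨x, hx, rfl⟩
    exact ⟨fun h => (h1 x hx).1 (Subtype.ext h), (h1 x hx).2⟩
  · rintro _ ⟨x, hx, rfl⟩
    obtain ⟨y, z, hy, hz, hyz, h3, h4⟩ := h2 x hx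
    exact ⟨y, z, ⟨y, hy, rfl⟩, ⟨z, hz, rfl⟩, fun h => hyz (Subtype.ext h), h3, h4⟩

theorem P4_up {G : SimpleGraph V} {s : Set V} (h : P4 (G.induce s)) : P4 G := by
  obtain ⟨X, b, hb, h1, h2⟩ := h
  refine ⟨Subtype.val '' X, fun i => (b i).1, fun i j h => hb (Subtype.ext h), ?_, ?_⟩
  · intro i
    obtain ⟨h3, y, z, w, hy, hz, hw, n1, n2, n3, a1, a2, a3⟩ := h1 i
    exact ⟨⟨_, h3, rfl⟩, y, z, w, ⟨_, hy, rfl⟩, ⟨_, hz, rfl⟩, ⟨_, hw, rfl⟩,
      fun h => n1 (Subtype.ext h), fun h => n2 (Subtype.ext h), fun h => n3 (Subtype.ext h),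
      a1, a2, a3⟩
  · rintro _ ⟨x, hx, rfl⟩ _ ⟨y, hy, rfl⟩ _ ⟨z, hz, rfl⟩ a1 a2 a3
    obtain ⟨i, hi⟩ := h2 x hx y hy z hz a1 a2 a3
    exact ⟨i, congrArg Subtype.val hi⟩

theorem P5_up {G : SimpleGraph V} {s : Set V} (h : P5 (G.induce s)) : P5 G := by
  obtain ⟨x, b, hb, h1⟩ := h
  exact ⟨x, fun i => (b i).1, fun i j h => hb (Subtype.ext h), h1⟩

end Pool.Agent.Helper917ITM
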