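import Pool.Agent.Helper917_ITM.Block

/-! The classification. -/

namespace Pool.Agent.Helper917ITM

open Pool.Agent.H175R2 Pool.Agent.R36 Finset Classical

variable {V : Type}

lemma CM.p4free {G : SimpleGraph V} {D : Finset V} (h : CM G D) : P4Free G D := by
  intro a ha b hb c hc d hd _ _ _ hab _ _
  rcases h a ha b hb d hd hab with h1 | h1
  · exact Or.inr (Or.inl h1.symm)
  · exact Or.inr (Or.inr h1.symm)

lemma Kc.cm {G : SimpleGraph V} {D : Finset V} (h : Kc G D) : CM G D := by
  intro x hx y hy z hz hxy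
  by_cases hzx : z = x
  · subst hzx; exact Or.inr hxy
  · exact Or.inl (h z hz x hx hzx)

lemma dt_two [Fintype V] {G : SimpleGraph V} (hne : (univ : Finset V).Nonempty)
    (h : CM G univ ∨ Cyc G univ) : DT G 2 univ univ := by
  apply dt_regions hne
  intro x _
  rcases h with h | h
  · exact Or.inr (h.p4free.mono (subset_univ _))
  · left
    intro y _
    obtain ⟨a, b, hd⟩ := h y (mem_univ _)
    have : univ.filter (fun z => G.Adj y z) ⊆ {a, b} := by
      intro z hz
      rw [mem_filter] at hz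
      have := hd.only z (mem_univ _) hz.2
      simpa using this
    exact (card_le_card this).trans card_le_two

lemma twoConn_twoC [Fintype V] {G : SimpleGraph V} (h : TwoConn G) : TwoC G univ :=
  ⟨by rw [card_univ]; exact h.card, h.conn, fun v _ => h.del v⟩

/-- from connected graphs to all graphs -/
lemma dt_all_graphs (P : ∀ {V : Type}, SimpleGraph V → Prop)
    (hP : ∀ {U V : Type} (e : U ↪ V) (G : SimpleGraph V), P G → P (G.comap e)) (K : ℕ)
    (h2 : ∀ (V : Type) [Fintype V] (G : SimpleGraph V), TwoConn G → P G → DT G K univ univ)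
    (V : Type) [Fintype V] [Nonempty V] (G : SimpleGraph V) (hG : P G) :
    DT G (K + 1) univ univ := by
  apply dt_of_components univ_nonempty
  intro x hx
  set C := cpt G univ x with hC
  have h1 : DT (G.comap (emb C)) (K + 1) univ univ := by
    refine Helper917ITM.dt_of_blocks P hP K h2 _ (H175R2.Sub C) _ le_rfl ?_ (hP _ _ hG)
    apply Cn.comap
    rw [map_univ_sub]
    exact cn_cpt hx
  have h3 := h1.map
  rw [map_univ_sub] at h3
  refine h3.transfer fun B hB hn => ?_
  have : nt G univ B = nt G C B := by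
    unfold nt
    congr 2
    apply image_congr
    intro y hy
    ext z
    simp only [mem_on]
    constructor
    · rintro ⟨⟨h1, h2⟩, h3⟩
      refine ⟨⟨?_, h2⟩, h3⟩
      by_contra hz
      exact not_adj_cpt hx (hB hy) h1 hz h3
    · rintro ⟨⟨_, h2⟩, h3⟩
      exact ⟨⟨mem_univ _, h2⟩, h3⟩
  rw [this]; exact hn

lemma nonempty_of_built {k : ℕ} {U : Type} {H : SimpleGraph U} {l : U → Fin k}
    (h : CwBuilt k U H l) : Nonempty U := by
  induction h with
  | single => infer_instance
  | union V W G H l m _ _ h1 h2 => exact ⟨Sum.inl h1.some⟩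
  | join _ _ _ _ _ _ _ h => exact h
  | relabel _ _ _ _ _ _ h => exact h

lemma cliqueWidth_le {G : SimpleGraph V} [Finite V] {c : ℕ}
    (h : Nonempty V → ∃ k ≤ c, CwLE G k) : cliqueWidth G ≤ c := by
  by_cases hV : Nonempty V
  · obtain ⟨k, hk, hG⟩ := h hV
    exact (Nat.sInf_le hG).trans hk
  · have : {k | CwLE G k} = ∅ := by
      ext k
      simp only [Set.mem_setOf_eq, Set.mem_empty_iff_false, iff_false]
      rintro ⟨W, G', l, hb, ⟨e⟩⟩
      have := nonempty_of_built hb
      exact hV ⟨e.symm this.some⟩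
    unfold cliqueWidth
    rw [this, Nat.sInf_empty]
    exact Nat.zero_le _

theorem bdd_paw : BddITM paw := by
  refine ⟨12, fun V _ G hG => cliqueWidth_le fun hne => ⟨12, le_rfl, ?_⟩⟩
  have : Fintype V := Fintype.ofFinite V
  refine cwLE_of_dt (K := 3) ?_
  refine dt_all_graphs (fun G => ¬ IsITM paw G) (fun e G h h' => h (h'.comap e)) 2 ?_ V G hG
  intro V _ G ht hG
  apply dt_two ht.conn.1
  rcases paw_two _ G univ le_rfl (twoConn_twoC ht) with h | h | h
  · exact absurd h.isITM hG
  · exact Or.inl h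
  · exact Or.inr h

theorem bdd_diamond : BddITM diamond := by
  refine ⟨12, fun V _ G hG => cliqueWidth_le fun hne => ⟨12, le_rfl, ?_⟩⟩
  have : Fintype V := Fintype.ofFinite V
  refine cwLE_of_dt (K := 3) ?_
  refine dt_all_graphs (fun G => ¬ IsITM diamond G) (fun e G h h' => h (h'.comap e)) 2 ?_ V G hG
  intro V _ G ht hG
  apply dt_two ht.conn.1
  rcases diamond_two _ G univ le_rfl (twoConn_twoC ht) with h | h | h
  · exact absurd h.isITM hG
  · exact Or.inl h.cm
  · exact Or.inr h

theorem bdd_p4 : BddITM P4path := by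
  refine ⟨6, fun V _ G hG => cliqueWidth_le fun hne => ⟨6, le_rfl, ?_⟩⟩
  have : Fintype V := Fintype.ofFinite V
  refine cwLE_of_dt (K := 1) ?_
  refine dt_cograph _ univ univ le_rfl univ_nonempty (Subset.refl _) ?_
    (fun x _ y _ z hz hz' => absurd hz hz')
  intro a _ b _ c _ d _ hac had hbd hab hbc hcd
  by_contra hcon
  push Not at hcon
  obtain ⟨h1, h2, h3⟩ := hcon
  apply hG
  refine On.isITM (D := Set.univ) (On.of_map ![a, b, c, d]
    (inj4 hab.ne hac had hbc.ne hbd hcd.ne) (fun _ => Set.mem_univ _) ?_)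
  have h1' : ¬ G.Adj c a := fun h => h1 h.symm
  have h2' : ¬ G.Adj d a := fun h => h2 h.symm
  have h3' : ¬ G.Adj d b := fun h => h3 h.symm
  intro i j
  rw [tP_eq]
  fin_cases i <;> fin_cases j <;>
    simp [tP, ad, hab, hbc, hcd, h1, h2, h3, hab.symm, hbc.symm, hcd.symm, h1', h2', h3']

lemma BddITM.mono {W W' : Type} {H : SimpleGraph W} {H' : SimpleGraph W'} (f : H ↪g H')
    (h : BddITM H') : BddITM H := by
  obtain ⟨c, hc⟩ := h
  exact ⟨c, fun V _ G hG => hc V G fun h' => hG (h'.mono f)⟩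

theorem main {W : Type} [Finite W] (H : SimpleGraph W) :
    BddITM H ↔ (Nonempty (H ↪g SimpleGraph.pathGraph 4) ∨ Nonempty (H ↪g paw) ∨
      Nonempty (H ↪g diamond)) := by
  constructor
  · intro h
    exact classify_small (fun h1 => unb1 h1 h) (fun h1 => unb2 h1 h) (fun h1 => unb3 h1 h)
      (fun h1 => unb4 h1 h) (fun h1 => unb5 h1 h)
  · rintro (⟨⟨f⟩⟩ | ⟨⟨f⟩⟩ | ⟨⟨f⟩⟩)
    · exact bdd_p4.mono f
    · exact bdd_paw.mono f
    · exact bdd_diamond.mono f

end Pool.Agent.Helper917ITM
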