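import Pool.Agent.Helper917_ITM.TwoC

/-! Structure of 2-connected graphs without an induced subdivision of the paw or of the diamond. -/

namespace Pool.Agent.Helper917ITM

open Pool.Agent.H175R2 Finset Classical

variable {V W : Type} {G : SimpleGraph V} {H : SimpleGraph W}

/-- complete -/
def Kc (G : SimpleGraph V) (D : Finset V) : Prop := ∀ x ∈ D, ∀ y ∈ D, x ≠ y → G.Adj x y

/-- complete multipartite -/
def CM (G : SimpleGraph V) (D : Finset V) : Prop :=
  ∀ x ∈ D, ∀ y ∈ D, ∀ z ∈ D, G.Adj x y → G.Adj z x ∨ G.Adj z y

lemma Deg2.two {D : Finset V} {v a b : V} (h : Deg2 G D v a b) {x y : V} (hx : x ∈ D) (hy : y ∈ D)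
    (hxy : x ≠ y) (vx : G.Adj v x) (vy : G.Adj v y) : Deg2 G D v x y := by
  refine ⟨h.hv, hx, hy, hxy, vx, vy, fun z hz vz => ?_⟩
  have e1 := h.only x hx vx
  have e2 := h.only y hy vy
  have e3 := h.only z hz vz
  rcases e1 with rfl | rfl <;> rcases e2 with rfl | rfl
  · exact absurd rfl hxy
  · exact e3
  · exact e3.symm
  · exact absurd rfl hxy

lemma TwoC.two_nbrs {D : Finset V} (h : TwoC G D) {v : V} (hv : v ∈ D) :
    ∃ a ∈ D, ∃ b ∈ D, a ≠ b ∧ G.Adj v a ∧ G.Adj v b := by
  have hc := h.card
  have hne : (D \ {v}).Nonempty := by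
    apply card_pos.1
    rw [card_sdiff_of_subset (by simpa using hv)]
    simp; omega
  obtain ⟨x, hx, a, ha, hxa⟩ := h.conn.2 {v} (by simpa using hv) ⟨v, by simp⟩ hne
  rw [mem_singleton] at hx
  subst hx
  rw [mem_sdiff, mem_singleton] at ha
  have hne2 : ((D.erase x).erase a).Nonempty := by
    apply card_pos.1
    rw [card_erase_of_mem (mem_erase.2 ⟨ha.2, ha.1⟩), card_erase_of_mem hv]; omega
  obtain ⟨w, hw⟩ := hne2
  rw [mem_erase, mem_erase] at hw
  obtain ⟨s, hs, t, ht, _, hta, hst⟩ := h.out (S := {x}) (by simpa using hv) ⟨x, by simp⟩ (z := a)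
    ha.1 (by simpa using ha.2) (w := w) hw.2.2 (by simpa using hw.2.1) hw.1
  rw [mem_singleton] at hs
  subst hs
  exact ⟨a, ha.1, t, ht, Ne.symm hta, hxa, hst⟩

lemma TwoC.complete_of_card {D : Finset V} (h : TwoC G D) (h3 : D.card < 4) : Kc G D := by
  intro p hp q hq hpq
  have hc := h.card
  obtain ⟨a, ha, b, hb, hab, h1, h2⟩ := h.two_nbrs hp
  by_contra hn
  have hqa : q ≠ a := by rintro rfl; exact hn h1
  have hqb : q ≠ b := by rintro rfl; exact hn h2
  have : ({p, q, a, b} : Finset V) ⊆ D := by
    intro z hz
    simp only [mem_insert, mem_singleton] at hz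
    rcases hz with rfl | rfl | rfl | rfl <;> assumption
  have hcard : ({p, q, a, b} : Finset V).card = 4 := by
    rw [card_insert_of_notMem, card_insert_of_notMem, card_insert_of_notMem, card_singleton]
    · simpa using hab
    · simp only [mem_insert, mem_singleton, not_or]; exact ⟨hqa, hqb⟩
    · simp only [mem_insert, mem_singleton, not_or]; exact ⟨hpq, h1.ne, h2.ne⟩
  have := card_le_card this
  omega

lemma Cyc.triangle {E : Finset V} (h : Cyc G E) (hc : Cn G E) {x a b : V} (hd : Deg2 G E x a b)
    (hab : G.Adj a b) : Kc G E := by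
  have hE : ∀ y ∈ E, y = x ∨ y = a ∨ y = b := by
    by_contra hcon
    push Not at hcon
    obtain ⟨y, hy, h1, h2, h3⟩ := hcon
    obtain ⟨p, hp, q, hq, hpq⟩ := hc.2 {x, a, b} (by
      intro z hz
      simp only [mem_insert, mem_singleton] at hz
      rcases hz with rfl | rfl | rfl
      · exact hd.hv
      · exact hd.ha
      · exact hd.hb) ⟨x, by simp⟩ ⟨y, by simp [hy, h1, h2, h3]⟩
    simp only [mem_sdiff, mem_insert, mem_singleton, not_or] at hp hq
    obtain ⟨hqE, q1, q2, q3⟩ := hq
    rcases hp with rfl | rfl | rfl
    · rcases hd.only q hqE hpq with h | h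
      · exact q2 h
      · exact q3 h
    · obtain ⟨c, d, hcd⟩ := h p hd.ha
      have := (hcd.two hd.hv hd.hb hd.vb.ne hd.va.symm hab).only q hqE hpq
      rcases this with h | h
      · exact q1 h
      · exact q3 h
    · obtain ⟨c, d, hcd⟩ := h p hd.hb
      have := (hcd.two hd.hv hd.ha hd.va.ne hd.vb.symm hab.symm).only q hqE hpq
      rcases this with h | h
      · exact q1 h
      · exact q2 h
  intro p hp q hq hpq
  rcases hE p hp with rfl | rfl | rfl <;> rcases hE q hq with rfl | rfl | rfl
  · exact absurd rfl hpq
  · exact hd.va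
  · exact hd.vb
  · exact hd.va.symm
  · exact absurd rfl hpq
  · exact hab
  · exact hd.vb.symm
  · exact hab.symm
  · exact absurd rfl hpq

/-- the induction -/
theorem main_ind (Good : SimpleGraph V → Finset V → Prop)
    (G1 : ∀ G D, Kc G D → Good G D)
    (G2 : ∀ G E v, v ∉ E → TwoC G E → Good G E →
      (∃ a ∈ E, ∃ b ∈ E, a ≠ b ∧ G.Adj v a ∧ G.Adj v b) →
      On H G (insert v E : Finset V) ∨ Good G (insert v E))
    (G3 : ∀ G E v, v ∉ E → TwoC G E → Cyc G E → (∀ x ∈ E, G.Adj v x) →
      (∀ x a b, Deg2 G E x a b → ¬ G.Adj a b) →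
      On H G (insert v E : Finset V) ∨ Good G (insert v E))
    (G4 : ∀ G D v a b, 4 ≤ D.card → TwoC G D → Deg2 G D v a b → ¬ G.Adj a b →
      TwoC (addE G a b) (D.erase v) → Good (addE G a b) (D.erase v) →
      On H G D ∨ Good G D ∨ Cyc G D) :
    ∀ n (G : SimpleGraph V) (D : Finset V), D.card ≤ n → TwoC G D →
      On H G D ∨ Good G D ∨ Cyc G D := by
  intro n
  induction n with
  | zero =>
    intro G D h1 h2
    have := h2.card
    omega
  | succ n ih =>
    intro G D hn h
    by_cases h4 : D.card < 4
    · exact Or.inr (Or.inl (G1 G D (h.complete_of_card h4)))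
    push Not at h4
    by_cases hex : ∃ v a b, Deg2 G D v a b ∧ ¬ G.Adj a b
    · obtain ⟨v, a, b, hd, hab⟩ := hex
      have ht := h.suppress h4 hd
      have hcard : (D.erase v).card ≤ n := by rw [card_erase_of_mem hd.hv]; omega
      have hva : v ≠ a := hd.va.ne
      have hvb : v ≠ b := hd.vb.ne
      rcases ih _ _ hcard ht with h1 | h1 | h1
      · left
        refine On.suppress (D := (D : Set V)) (by simpa using hd.hv) hd.va hd.vb hd.ne hab
          (fun x hx => hd.only x (by simpa using hx)) ?_
        rw [coe_erase] at h1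
        exact h1
      · exact G4 G D v a b h4 h hd hab ht h1
      · right; right
        intro x hx
        by_cases hxv : x = v
        · subst hxv; exact ⟨a, b, hd⟩
        · have hxe : x ∈ D.erase v := mem_erase.2 ⟨hxv, hx⟩
          obtain ⟨p, q, hpq⟩ := h1 x hxe
          have hpD := mem_erase.1 hpq.ha
          have hqD := mem_erase.1 hpq.hb
          by_cases hxa : x = a
          · subst hxa
            -- one of `p`, `q` is `b`
            have hb' : b ∈ D.erase v := mem_erase.2 ⟨hvb.symm, hd.hb⟩
            have adj : (addE G x b).Adj x b := (addE_adj hd.ne).2 (Or.inr (Or.inl ⟨rfl, rfl⟩))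
            obtain ⟨r, hr⟩ : ∃ r, Deg2 (addE G x b) (D.erase v) x b r := by
              rcases hpq.only b hb' adj with h2 | h2
              · subst h2; exact ⟨q, hpq⟩
              · subst h2; exact ⟨p, hpq.two hpq.hb hpq.ha hpq.ne.symm hpq.vb hpq.va⟩
            have hrD := mem_erase.1 hr.hb
            have hxr : G.Adj x r := by
              rcases (addE_adj hd.ne).1 hr.vb with h2 | h2 | h2
              · exact h2
              · exact absurd h2.2 hr.ne.symm
              · exact absurd h2.1 hd.ne
            refine ⟨v, r, hx, hd.hv, hrD.2, hrD.1.symm, hd.va.symm, hxr, ?_⟩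
            intro y hy hxy
            by_cases hyv : y = v
            · exact Or.inl hyv
            · rcases hr.only y (mem_erase.2 ⟨hyv, hy⟩) ((addE_adj hd.ne).2 (Or.inl hxy)) with h2 | h2
              · subst h2; exact absurd hxy hab
              · exact Or.inr h2
          · by_cases hxb : x = b
            · subst hxb
              have ha' : a ∈ D.erase v := mem_erase.2 ⟨hva.symm, hd.ha⟩
              have adj : (addE G a x).Adj x a := (addE_adj hd.ne).2 (Or.inr (Or.inr ⟨rfl, rfl⟩))
              obtain ⟨r, hr⟩ : ∃ r, Deg2 (addE G a x) (D.erase v) x a r := by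
                rcases hpq.only a ha' adj with h2 | h2
                · subst h2; exact ⟨q, hpq⟩
                · subst h2; exact ⟨p, hpq.two hpq.hb hpq.ha hpq.ne.symm hpq.vb hpq.va⟩
              have hrD := mem_erase.1 hr.hb
              have hxr : G.Adj x r := by
                rcases (addE_adj hd.ne).1 hr.vb with h2 | h2 | h2
                · exact h2
                · exact absurd h2.1 hd.ne.symm
                · exact absurd h2.2 hr.ne.symm
              refine ⟨v, r, hx, hd.hv, hrD.2, hrD.1.symm, hd.vb.symm, hxr, ?_⟩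
              intro y hy hxy
              by_cases hyv : y = v
              · exact Or.inl hyv
              · rcases hr.only y (mem_erase.2 ⟨hyv, hy⟩) ((addE_adj hd.ne).2 (Or.inl hxy)) with
                  h2 | h2
                · subst h2; exact absurd hxy.symm hab
                · exact Or.inr h2
            · have same : ∀ y, (addE G a b).Adj x y ↔ G.Adj x y := by
                intro y
                rw [addE_adj hd.ne]
                constructor
                · rintro (h2 | h2 | h2)
                  · exact h2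
                  · exact absurd h2.1 hxa
                  · exact absurd h2.1 hxb
                · exact Or.inl
              refine ⟨p, q, hx, hpD.2, hqD.2, hpq.ne, (same _).1 hpq.va, (same _).1 hpq.vb, ?_⟩
              intro y hy hxy
              by_cases hyv : y = v
              · subst hyv
                rcases hd.only x hx hxy.symm with h2 | h2
                · exact absurd h2 hxa
                · exact absurd h2 hxb
              · exact hpq.only y (mem_erase.2 ⟨hyv, hy⟩) ((same _).2 hxy)
    · push Not at hex
      obtain ⟨v, hv, ht⟩ : ∃ v ∈ D, TwoC G (D.erase v) := by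
        rcases h.reduce h4 with h1 | ⟨v, a, b, hd⟩
        · exact h1
        · refine ⟨v, hd.hv, (h.suppress h4 hd).congr ?_⟩
          have hab := hex v a b hd
          intro x _ y _ hxy
          rcases (addE_adj hd.ne).1 hxy with h2 | ⟨rfl, rfl⟩ | ⟨rfl, rfl⟩
          · exact h2
          · exact hab
          · exact hab.symm
      have hcard : (D.erase v).card ≤ n := by rw [card_erase_of_mem hv]; omega
      have hins : insert v (D.erase v) = D := insert_erase hv
      have hvE : v ∉ D.erase v := notMem_erase v D
      obtain ⟨a, ha, b, hb, hab, va, vb⟩ := h.two_nbrs hv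
      have hnb : ∃ a ∈ D.erase v, ∃ b ∈ D.erase v, a ≠ b ∧ G.Adj v a ∧ G.Adj v b :=
        ⟨a, mem_erase.2 ⟨va.ne.symm, ha⟩, b, mem_erase.2 ⟨vb.ne.symm, hb⟩, hab, va, vb⟩
      have good : Good G (D.erase v) → On H G D ∨ Good G D ∨ Cyc G D := by
        intro hg
        have := G2 G (D.erase v) v hvE ht hg hnb
        rw [hins] at this
        rcases this with h2 | h2
        · exact Or.inl h2
        · exact Or.inr (Or.inl h2)
      rcases ih _ _ hcard ht with h1 | h1 | h1
      · left
        exact h1.mono (by rw [coe_erase]; exact Set.diff_subset)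
      · exact good h1
      · by_cases htri : ∃ x a b, Deg2 G (D.erase v) x a b ∧ G.Adj a b
        · obtain ⟨x, a, b, hd, hab⟩ := htri
          exact good (G1 _ _ (h1.triangle ht.conn hd hab))
        · push Not at htri
          have hall : ∀ x ∈ D.erase v, G.Adj v x := by
            intro x hx
            by_contra hvx
            obtain ⟨p, q, hpq⟩ := h1 x hx
            apply htri x p q hpq
            refine hex x p q ⟨(mem_erase.1 hx).2, (mem_erase.1 hpq.ha).2, (mem_erase.1 hpq.hb).2,
              hpq.ne, hpq.va, hpq.vb, fun y hy hxy => ?_⟩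
            by_cases hyv : y = v
            · subst hyv; exact absurd hxy.symm hvx
            · exact hpq.only y (mem_erase.2 ⟨hyv, hy⟩) hxy
          have := G3 G (D.erase v) v hvE ht h1 hall htri
          rw [hins] at this
          rcases this with h2 | h2
          · exact Or.inl h2
          · exact Or.inr (Or.inl h2)

end Pool.Agent.Helper917ITM
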