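import Pool.Agent.Helper917_ITM.Defs

/-! Basic lemmas on subdivisions. -/

namespace Pool.Agent.Helper917ITM

open Pool.Agent.H175R2

variable {V W U : Type}

lemma sub_some_some {G : SimpleGraph V} {u v a b : V} :
    (subdivideEdge G u v).Adj (some a) (some b) ↔
      G.Adj a b ∧ ¬ (a = u ∧ b = v) ∧ ¬ (a = v ∧ b = u) := by
  simp only [subdivideEdge, SimpleGraph.fromRel_adj, ne_eq, Option.some.injEq, reduceCtorEq,
    false_and, or_false]
  constructor
  · rintro ⟨h1, ⟨a', b', rfl, rfl, h2, h3, h4⟩ | ⟨a', b', rfl, rfl, h2, h3, h4⟩⟩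
    · exact ⟨h2, h3, h4⟩
    · exact ⟨h2.symm, fun h => h4 ⟨h.2, h.1⟩, fun h => h3 ⟨h.2, h.1⟩⟩
  · rintro ⟨h1, h2, h3⟩
    exact ⟨h1.ne, Or.inl ⟨a, b, rfl, rfl, h1, h2, h3⟩⟩

lemma sub_none_some {G : SimpleGraph V} {u v a : V} :
    (subdivideEdge G u v).Adj none (some a) ↔ a = u ∨ a = v := by
  simp [subdivideEdge, SimpleGraph.fromRel_adj]

lemma sub_some_none {G : SimpleGraph V} {u v a : V} :
    (subdivideEdge G u v).Adj (some a) none ↔ a = u ∨ a = v := by
  rw [SimpleGraph.adj_comm, sub_none_some]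

lemma sub_none_none {G : SimpleGraph V} {u v : V} : ¬ (subdivideEdge G u v).Adj none none :=
  fun h => h.ne rfl

/-- an embedding extends to the subdivided graphs -/
def subEmb {G : SimpleGraph V} {H : SimpleGraph W} (f : H ↪g G) (u v : W) :
    subdivideEdge H u v ↪g subdivideEdge G (f u) (f v) where
  toFun := Option.map f
  inj' := Option.map_injective f.injective
  map_rel_iff' := by
    rintro (_ | a) (_ | b)
    · simp
    · simp only [Function.Embedding.coeFn_mk, Option.map_none, Option.map_some, sub_none_some,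
        f.injective.eq_iff]
    · simp only [Function.Embedding.coeFn_mk, Option.map_none, Option.map_some, sub_some_none,
        f.injective.eq_iff]
    · simp only [Function.Embedding.coeFn_mk, Option.map_some, sub_some_some,
        f.injective.eq_iff, f.map_adj_iff]

/-- an isomorphism extends to the subdivided graphs -/
def subIso {G : SimpleGraph V} {H : SimpleGraph W} (f : H ≃g G) (u v : W) :
    subdivideEdge H u v ≃g subdivideEdge G (f u) (f v) where
  toEquiv := Equiv.optionCongr f.toEquiv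
  map_rel_iff' := by
    intro a b
    exact (subEmb f.toEmbedding u v).map_adj_iff

lemma Subdivision.trans_iso {H : SimpleGraph V} {S : SimpleGraph W} {S' : SimpleGraph U}
    (h : Subdivision H S) (e : S ≃g S') : Subdivision H S' := by
  induction h with
  | iso f => exact Subdivision.iso (f.trans e)
  | step huv _ ih => exact Subdivision.step huv (ih e)

lemma Subdivision.iso_trans {H : SimpleGraph V} {H' : SimpleGraph U} {S : SimpleGraph W}
    (e : H' ≃g H) (h : Subdivision H S) : Subdivision H' S := by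
  induction h generalizing U with
  | iso f => exact Subdivision.iso (e.trans f)
  | @step V W H S u v huv _ ih =>
    refine Subdivision.step (u := e.symm u) (v := e.symm v) ?_ (ih ?_)
    · rwa [e.symm.map_adj_iff]
    · have := subIso e (e.symm u) (e.symm v)
      rwa [e.apply_symm_apply, e.apply_symm_apply] at this

/-- subdividing once more at the end -/
lemma Subdivision.snoc {H : SimpleGraph V} {S : SimpleGraph W} (h : Subdivision H S) :
    ∀ {u v : W}, S.Adj u v → Subdivision H (subdivideEdge S u v) := by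
  induction h with
  | @iso V W H S e =>
    intro u v huv
    refine Subdivision.step (u := e.symm u) (v := e.symm v) ?_ (Subdivision.iso ?_)
    · rwa [e.symm.map_adj_iff]
    · have := subIso e (e.symm u) (e.symm v)
      rwa [e.apply_symm_apply, e.apply_symm_apply] at this
  | step huv _ ih =>
    intro u v h'
    exact Subdivision.step huv (ih h')

/-- monotonicity in `H` -/
lemma Subdivision.mono {H : SimpleGraph V} {S : SimpleGraph W} (h : Subdivision H S) :
    ∀ {U : Type} {H0 : SimpleGraph U}, (H0 ↪g H) → ∃ s : Set W, Subdivision H0 (S.induce s) := by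
  induction h with
  | @iso V W H S e =>
    intro U H0 f
    let g : H0 ↪g S := e.toEmbedding.comp f
    refine ⟨Set.range g, Subdivision.iso ?_⟩
    exact ⟨Equiv.ofInjective g g.injective, by
      intro a b
      simp only [Equiv.ofInjective_apply, SimpleGraph.comap_adj, Function.Embedding.subtype_apply]
      exact g.map_adj_iff⟩
  | @step V W H S u v huv _ ih =>
    intro U H0 f
    by_cases h1 : (∃ a, f a = u) ∧ ∃ b, f b = v
    · obtain ⟨⟨a, rfl⟩, b, rfl⟩ := h1
      obtain ⟨s, hs⟩ := ih (subEmb f a b)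
      exact ⟨s, Subdivision.step (f.map_adj_iff.1 huv) hs⟩
    · refine ih ⟨⟨fun a => some (f a), fun a b hab => f.injective (Option.some_injective _ hab)⟩, ?_⟩
      intro a b
      simp only [Function.Embedding.coeFn_mk, sub_some_some, f.map_adj_iff]
      constructor
      · exact fun h => h.1
      · intro h
        refine ⟨h, fun h' => h1 ⟨⟨a, h'.1⟩, b, h'.2⟩, fun h' => h1 ⟨⟨b, h'.2⟩, a, h'.1⟩⟩

/-- restricting twice -/
def inducePre (G : SimpleGraph V) (s : Set V) (t : Set s) :
    (G.induce s).induce t ≃g G.induce (Subtype.val '' t) where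
  toFun x := ⟨x.1.1, ⟨x.1, x.2, rfl⟩⟩
  invFun x := ⟨⟨x.1, by obtain ⟨y, _, h⟩ := x.2; rw [← h]; exact y.2⟩, by
    obtain ⟨y, h1, h2⟩ := x.2
    have : (⟨x.1, by rw [← h2]; exact y.2⟩ : s) = y := Subtype.ext h2.symm
    rw [this]; exact h1⟩
  left_inv x := rfl
  right_inv x := rfl
  map_rel_iff' := by
    rintro ⟨⟨a, ha⟩, ha'⟩ ⟨⟨b, hb⟩, hb'⟩
    simp

lemma IsITM.mono {H0 : SimpleGraph U} {H : SimpleGraph W} {G : SimpleGraph V} (f : H0 ↪g H)
    (h : IsITM H G) : IsITM H0 G := by
  obtain ⟨s, hs⟩ := h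
  obtain ⟨t, ht⟩ := hs.mono f
  exact ⟨_, ht.trans_iso (inducePre G s t)⟩

lemma IsITM.of_emb {H : SimpleGraph W} {G : SimpleGraph V} (f : H ↪g G) : IsITM H G := by
  obtain ⟨s, hs⟩ := (Subdivision.iso (SimpleGraph.Iso.refl : G ≃g G)).mono f
  exact ⟨s, hs⟩

lemma IsITM.comap {H : SimpleGraph W} {G : SimpleGraph V} (e : U ↪ V) (h : IsITM H (G.comap e)) :
    IsITM H G := by
  obtain ⟨s, hs⟩ := h
  refine ⟨e '' s, hs.trans_iso ⟨Equiv.Set.image e s e.injective, ?_⟩⟩
  rintro ⟨a, ha⟩ ⟨b, hb⟩
  simp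

/-- `G` restricted to the set `D` contains a subdivision of `H`. -/
def On (H : SimpleGraph W) (G : SimpleGraph V) (D : Set V) : Prop :=
  ∃ s ⊆ D, Subdivision H (G.induce s)

lemma On.mono {H : SimpleGraph W} {G : SimpleGraph V} {D D' : Set V} (h : On H G D) (hD : D ⊆ D') :
    On H G D' := by
  obtain ⟨s, h1, h2⟩ := h
  exact ⟨s, h1.trans hD, h2⟩

lemma On.isITM {H : SimpleGraph W} {G : SimpleGraph V} {D : Set V} (h : On H G D) : IsITM H G := by
  obtain ⟨s, _, h2⟩ := h
  exact ⟨s, h2⟩

/-- a copy of `H` -/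
lemma On.of_map {H : SimpleGraph W} {G : SimpleGraph V} {D : Set V} (f : W → V)
    (hf : Function.Injective f) (h1 : ∀ a, f a ∈ D) (h2 : ∀ a b, G.Adj (f a) (f b) ↔ H.Adj a b) :
    On H G D := by
  refine ⟨Set.range f, by rintro _ ⟨a, rfl⟩; exact h1 a, Subdivision.iso
    ⟨Equiv.ofInjective f hf, ?_⟩⟩
  intro a b
  simp only [Equiv.ofInjective_apply, SimpleGraph.comap_adj, Function.Embedding.subtype_apply]
  exact h2 a b

/-- adding the edge `ab` -/
def addE (G : SimpleGraph V) (a b : V) : SimpleGraph V :=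
  SimpleGraph.fromRel (fun x y => G.Adj x y ∨ (x = a ∧ y = b))

lemma addE_adj {G : SimpleGraph V} {a b x y : V} (hab : a ≠ b) :
    (addE G a b).Adj x y ↔ G.Adj x y ∨ (x = a ∧ y = b) ∨ (x = b ∧ y = a) := by
  simp only [addE, SimpleGraph.fromRel_adj, ne_eq]
  constructor
  · rintro ⟨_, (h | h) | (h | h)⟩
    · exact Or.inl h
    · exact Or.inr (Or.inl h)
    · exact Or.inl h.symm
    · exact Or.inr (Or.inr ⟨h.2, h.1⟩)
  · rintro (h | ⟨rfl, rfl⟩ | ⟨rfl, rfl⟩)
    · exact ⟨h.ne, Or.inl (Or.inl h)⟩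
    · exact ⟨hab, Or.inl (Or.inr ⟨rfl, rfl⟩)⟩
    · exact ⟨hab.symm, Or.inr (Or.inr ⟨rfl, rfl⟩)⟩

/-- Suppression of a vertex of degree two with nonadjacent neighbours. -/
lemma On.suppress {H : SimpleGraph W} {G : SimpleGraph V} {D : Set V} {v a b : V} (hv : v ∈ D)
    (hva : G.Adj v a) (hvb : G.Adj v b) (hab : a ≠ b) (hnab : ¬ G.Adj a b)
    (hdeg : ∀ x ∈ D, G.Adj v x → x = a ∨ x = b) (h : On H (addE G a b) (D \ {v})) : On H G D := by
  classical
  obtain ⟨s, hs, h2⟩ := h
  have hvs : v ∉ s := fun h => (hs h).2 rfl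
  have hsD : s ⊆ D := fun x hx => (hs hx).1
  by_cases hs1 : a ∈ s ∧ b ∈ s
  · obtain ⟨ha, hb⟩ := hs1
    refine ⟨insert v s, Set.insert_subset hv hsD, ?_⟩
    have h3 := h2.snoc (u := ⟨a, ha⟩) (v := ⟨b, hb⟩) (by
      simp only [SimpleGraph.comap_adj, Function.Embedding.subtype_apply]
      rw [addE_adj hab]; exact Or.inr (Or.inl ⟨rfl, rfl⟩))
    refine h3.trans_iso ⟨⟨fun x => match x with
        | none => ⟨v, Set.mem_insert _ _⟩
        | some y => ⟨y.1, Set.mem_insert_of_mem _ y.2⟩,
      fun x => if hx : x.1 ∈ s then some ⟨x.1, hx⟩ else none, ?_, ?_⟩, ?_⟩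
    · rintro (_ | y)
      · simp [hvs]
      · simp
    · rintro ⟨x, hx⟩
      rcases hx with rfl | hx
      · simp [hvs]
      · simp [hx]
    · have key : ∀ y : s, G.Adj v y.1 ↔ (y = ⟨a, ha⟩ ∨ y = ⟨b, hb⟩) := by
        rintro ⟨y, hy⟩
        simp only [Subtype.mk.injEq]
        constructor
        · exact hdeg y (hsD hy)
        · rintro (rfl | rfl)
          · exact hva
          · exact hvb
      rintro (_ | x) (_ | y)
      · simp
      · simp only [Equiv.coe_fn_mk, SimpleGraph.comap_adj, Function.Embedding.subtype_apply,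
          sub_none_some]
        exact key y
      · simp only [Equiv.coe_fn_mk, SimpleGraph.comap_adj, Function.Embedding.subtype_apply,
          sub_some_none]
        rw [G.adj_comm]
        exact key x
      · obtain ⟨x, hx⟩ := x
        obtain ⟨y, hy⟩ := y
        simp only [Equiv.coe_fn_mk, SimpleGraph.comap_adj, Function.Embedding.subtype_apply,
          sub_some_some, addE_adj hab, Subtype.mk.injEq]
        constructor
        · intro h
          refine ⟨Or.inl h, ?_, ?_⟩
          · rintro ⟨rfl, rfl⟩; exact hnab h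
          · rintro ⟨rfl, rfl⟩; exact hnab h.symm
        · rintro ⟨h | h | h, h4, h5⟩
          · exact h
          · exact absurd h h4
          · exact absurd h h5
  · refine ⟨s, hsD, ?_⟩
    have : (addE G a b).induce s = G.induce s := by
      ext ⟨x, hx⟩ ⟨y, hy⟩
      simp only [SimpleGraph.comap_adj, Function.Embedding.subtype_apply, addE_adj hab]
      constructor
      · rintro (h | ⟨rfl, rfl⟩ | ⟨rfl, rfl⟩)
        · exact h
        · exact absurd ⟨hx, hy⟩ hs1
        · exact absurd ⟨hy, hx⟩ hs1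
      · exact Or.inl
    rwa [this] at h2

end Pool.Agent.Helper917ITM
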