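import Pool.Agent.H175R2.Cut

/-! A claw-free subcubic graph with disjoint triangles and large clique-width: the truncated wall. -/

namespace Pool.Agent.Helper917ITM

open Pool.Agent.H175R2

/-- general cut lemma for grid-like graphs: row index, column index, `m` vertices per cell -/
theorem gridlike_unbounded {n m : ℕ} (hm : 0 < m) (hn2 : 2 ≤ n) (G : SimpleGraph (Fin n × Fin n × Fin m))
    (near1 : ∀ x y, G.Adj x y → x.1.val ≤ y.1.val + 1)
    (near2 : ∀ x y, G.Adj x y → x.2.1.val ≤ y.2.1.val + 1)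
    (row : ∀ (P : Fin n × Fin n × Fin m → Prop) (i : Fin n), (∃ a, P (i, a)) → (∃ a, ¬ P (i, a)) →
      ∃ a b, P (i, a) ∧ ¬ P (i, b) ∧ G.Adj (i, a) (i, b))
    (col : ∀ (P : Fin n × Fin n × Fin m → Prop) (j : Fin n), (∃ i s, P (i, j, s)) →
      (∃ i s, ¬ P (i, j, s)) →
      ∃ i s i' s', P (i, j, s) ∧ ¬ P (i', j, s') ∧ G.Adj (i, j, s) (i', j, s'))
    {k : ℕ} (hk : 6 * k < n) : ¬ CwLE G k := by
  classical
  intro hcw
  have hn : 0 < n := by omega
  have hcard : (Set.univ : Set (Fin n × Fin n × Fin m)).ncard = n * n * m := by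
    rw [Set.ncard_univ]; simp [mul_assoc]
  have key : ∀ (A : Set (Fin n × Fin n × Fin m)) (f : Fin n × Fin n × Fin m → Fin n)
      (_ : ∀ x y, G.Adj x y → (f x).val ≤ (f y).val + 1) (M : Finset (Fin n))
      (_ : ∀ i ∈ M, ∃ x y, f x = i ∧ f y = i ∧ x ∈ A ∧ y ∉ A ∧ G.Adj x y),
      Types G A k → M.card ≤ 2 * k := by
    intro A f hf M hM ⟨l, hl⟩
    have hM' : ∀ i : Fin n, ∃ x y : Fin n × Fin n × Fin m,
        i ∈ M → f x = i ∧ f y = i ∧ x ∈ A ∧ y ∉ A ∧ G.Adj x y := by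
      intro i
      by_cases hi : i ∈ M
      · obtain ⟨x, y, h⟩ := hM i hi
        exact ⟨x, y, fun _ => h⟩
      · exact ⟨(⟨0, hn⟩, ⟨0, hn⟩, ⟨0, hm⟩), (⟨0, hn⟩, ⟨0, hn⟩, ⟨0, hm⟩), fun h => absurd h hi⟩
    choose X Y hXY using hM'
    by_contra hcon
    push Not at hcon
    have hcard' : (Finset.univ : Finset (Fin k)).card * 2 < M.card := by
      simp; omega
    obtain ⟨t, _, ht⟩ := Finset.exists_lt_card_fiber_of_mul_lt_card_of_maps_to
      (f := fun i => l (X i)) (s := M) (t := Finset.univ) (fun _ _ => Finset.mem_univ _) hcard'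
    rw [Finset.two_lt_card] at ht
    obtain ⟨x, hx, y, hy, z, hz, hxy, hxz, hyz⟩ := ht
    simp only [Finset.mem_filter] at hx hy hz
    have kk : ∀ x y : Fin n, x ∈ M → y ∈ M → l (X x) = l (X y) → y.val ≤ x.val + 1 := by
      intro x y hx hy hxy
      obtain ⟨h1, h2, h3, h4, h5⟩ := hXY x hx
      obtain ⟨g1, g2, g3, g4, g5⟩ := hXY y hy
      have h6 := (hl _ h3 _ g3 hxy _ h4).1 h5
      have := hf _ _ h6
      rw [g1, h2] at this
      exact this
    have k1 := kk x y hx.1 hy.1 (hx.2.trans hy.2.symm)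
    have k2 := kk y x hy.1 hx.1 (hy.2.trans hx.2.symm)
    have k3 := kk x z hx.1 hz.1 (hx.2.trans hz.2.symm)
    have k4 := kk z x hz.1 hx.1 (hz.2.trans hx.2.symm)
    have k5 := kk y z hy.1 hz.1 (hy.2.trans hz.2.symm)
    have k6 := kk z y hz.1 hy.1 (hz.2.trans hy.2.symm)
    have n1 : x.val ≠ y.val := fun h => hxy (Fin.ext h)
    have n2 : x.val ≠ z.val := fun h => hxz (Fin.ext h)
    have n3 : y.val ≠ z.val := fun h => hyz (Fin.ext h)
    omega
  obtain ⟨A, hT, h1, h2⟩ := balanced_cut G k hcw Set.univ (by rw [hcard]; nlinarith)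
  rw [Set.inter_univ, hcard] at h1 h2
  have hcompl : A.ncard + Aᶜ.ncard = n * n * m := by
    rw [Set.ncard_add_ncard_compl]; simp [mul_assoc]
  -- mixed rows
  let M : Finset (Fin n) := Finset.univ.filter (fun i => (∃ a, (i, a) ∈ A) ∧ ∃ a, (i, a) ∉ A)
  have hM : M.card ≤ 2 * k := by
    refine key A (fun x => x.1) near1 M (fun i hi => ?_) hT
    simp only [M, Finset.mem_filter, Finset.mem_univ, true_and] at hi
    obtain ⟨a, b, h1, h2, h3⟩ := row (fun x => x ∈ A) i hi.1 hi.2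
    exact ⟨(i, a), (i, b), rfl, rfl, h1, h2, h3⟩
  have small : ∀ B : Set (Fin n × Fin n × Fin m), (∀ x ∈ B, x.1 ∈ M) →
      B.ncard ≤ M.card * (n * m) := by
    intro B hB
    have h1 : B ⊆ ((M ×ˢ (Finset.univ : Finset (Fin n × Fin m)) : Finset _) : Set (Fin n × Fin n × Fin m)) := by
      rintro ⟨i, j⟩ hij
      simp only [Finset.coe_product, Finset.coe_univ, Set.mem_prod, Finset.mem_coe, Set.mem_univ,
        and_true]
      exact hB _ hij
    have h2 := Set.ncard_le_ncard h1 (Finset.finite_toSet _)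
    rw [Set.ncard_coe_finset, Finset.card_product] at h2
    simpa using h2
  have hbig : ∀ c : ℕ, c ≤ 2 * k → n * n * m ≤ 3 * (c * (n * m)) → False := by
    intro c hc h
    have h' : n * (n * m) ≤ (3 * c) * (n * m) := by
      calc n * (n * m) = n * n * m := by ring
        _ ≤ 3 * (c * (n * m)) := h
        _ = _ := by ring
    have := Nat.le_of_mul_le_mul_right h' (Nat.mul_pos hn hm)
    omega
  by_cases hfull : ∃ i, ∀ a, (i, a) ∈ A
  · by_cases hempty : ∃ i, ∀ a, (i, a) ∉ A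
    · obtain ⟨i, hi⟩ := hfull
      obtain ⟨i', hi'⟩ := hempty
      have := key A (fun x => x.2.1) near2 Finset.univ (fun j _ => ?_) hT
      · simp at this; omega
      · obtain ⟨i1, s1, i2, s2, h1, h2, h3⟩ := col (fun x => x ∈ A) j
          ⟨i, ⟨0, hm⟩, hi _⟩ ⟨i', ⟨0, hm⟩, hi' _⟩
        exact ⟨_, _, rfl, rfl, h1, h2, h3⟩
    · push Not at hempty
      have h3 := small Aᶜ (by
        rintro ⟨i, a⟩ hx
        simp only [M, Finset.mem_filter, Finset.mem_univ, true_and]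
        exact ⟨hempty i, a, hx⟩)
      refine hbig _ hM ?_
      omega
  · push Not at hfull
    have h3 := small A (by
      rintro ⟨i, a⟩ hx
      simp only [M, Finset.mem_filter, Finset.mem_univ, true_and]
      exact ⟨⟨a, hx⟩, hfull i⟩)
    refine hbig _ hM ?_
    omega

/-- edges inside a cell: the triangles `0 1 2` and `3 4 5` and the edge `2 3` -/
def gad (a b : Fin 6) : Prop :=
  (a = 0 ∧ b = 1) ∨ (a = 0 ∧ b = 2) ∨ (a = 1 ∧ b = 2) ∨ (a = 2 ∧ b = 3) ∨ (a = 3 ∧ b = 4) ∨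
    (a = 3 ∧ b = 5) ∨ (a = 4 ∧ b = 5)

instance (a b : Fin 6) : Decidable (gad a b) := by unfold gad; infer_instance

/-- the truncated wall: `5` is joined to the `0` of the next cell of the row, `4` to the `1` of the
next cell of the column. -/
def famWall (n : ℕ) : SimpleGraph (Fin n × Fin n × Fin 6) :=
  SimpleGraph.fromRel (fun x y => (x.1 = y.1 ∧ x.2.1 = y.2.1 ∧ gad x.2.2 y.2.2) ∨
    (x.1 = y.1 ∧ x.2.1.val + 1 = y.2.1.val ∧ x.2.2 = 5 ∧ y.2.2 = 0) ∨
    (x.1.val + 1 = y.1.val ∧ x.2.1 = y.2.1 ∧ x.2.2 = 4 ∧ y.2.2 = 1))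

lemma wall_adj {n : ℕ} {x y : Fin n × Fin n × Fin 6} : (famWall n).Adj x y ↔ x ≠ y ∧
    (((x.1 = y.1 ∧ x.2.1 = y.2.1 ∧ gad x.2.2 y.2.2) ∨
    (x.1 = y.1 ∧ x.2.1.val + 1 = y.2.1.val ∧ x.2.2 = 5 ∧ y.2.2 = 0) ∨
    (x.1.val + 1 = y.1.val ∧ x.2.1 = y.2.1 ∧ x.2.2 = 4 ∧ y.2.2 = 1)) ∨
    ((y.1 = x.1 ∧ y.2.1 = x.2.1 ∧ gad y.2.2 x.2.2) ∨
    (y.1 = x.1 ∧ y.2.1.val + 1 = x.2.1.val ∧ y.2.2 = 5 ∧ x.2.2 = 0) ∨
    (y.1.val + 1 = x.1.val ∧ y.2.1 = x.2.1 ∧ y.2.2 = 4 ∧ x.2.2 = 1))) := by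
  simp only [famWall, SimpleGraph.fromRel_adj]

/-- a sequence covering a set in which consecutive terms are adjacent -/
lemma walk_step {V : Type} {G : SimpleGraph V} (L : ℕ) (w : ℕ → V) (hw : ∀ t, t + 1 < L → G.Adj (w t) (w (t + 1)))
    (P : V → Prop) (h1 : ∃ t < L, P (w t)) (h2 : ∃ t < L, ¬ P (w t)) :
    ∃ s < L, ∃ t < L, P (w s) ∧ ¬ P (w t) ∧ G.Adj (w s) (w t) := by
  by_contra hcon
  push Not at hcon
  have hstep : ∀ j, j + 1 < L → (P (w j) ↔ P (w (j + 1))) := by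
    intro j hj
    constructor
    · intro h
      by_contra h'
      exact hcon j (by omega) (j + 1) hj h h' (hw j hj)
    · intro h
      by_contra h'
      exact hcon (j + 1) hj j (by omega) h h' (hw j hj).symm
  have hall : ∀ j, j < L → (P (w j) ↔ P (w 0)) := by
    intro j
    induction j with
    | zero => intro _; rfl
    | succ j ih =>
      intro hj
      rw [← hstep j hj]
      exact ih (by omega)
  obtain ⟨a, ha, ha'⟩ := h1
  obtain ⟨b, hb, hb'⟩ := h2
  exact hb' ((hall b hb).2 ((hall a ha).1 ha'))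

/-- order of the cell along a row -/
def ordR (t : ℕ) : Fin 6 :=
  if t = 0 then 0 else if t = 1 then 1 else if t = 2 then 2 else if t = 3 then 3 else
    if t = 4 then 4 else 5

/-- order of the cell along a column -/
def ordC (t : ℕ) : Fin 6 :=
  if t = 0 then 1 else if t = 1 then 0 else if t = 2 then 2 else if t = 3 then 3 else
    if t = 4 then 5 else 4

lemma ordR_inv (s : Fin 6) : ∃ t < 6, ordR t = s := by
  revert s; decide

lemma ordC_inv (s : Fin 6) : ∃ t < 6, ordC t = s := by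
  revert s; decide

theorem wall_not_cw {n k : ℕ} (hn2 : 2 ≤ n) (hk : 6 * k < n) : ¬ CwLE (famWall n) k := by
  have hn : 0 < n := by omega
  refine gridlike_unbounded (by norm_num) hn2 _ ?_ ?_ ?_ ?_ hk
  · intro x y h
    rw [wall_adj] at h
    rcases h.2 with (h | h | h) | (h | h | h)
    · rw [h.1]; omega
    · rw [h.1]; omega
    · have := h.1; omega
    · rw [h.1]; omega
    · rw [h.1]; omega
    · have := h.1; omega
  · intro x y h
    rw [wall_adj] at h
    rcases h.2 with (h | h | h) | (h | h | h)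
    · rw [h.2.1]; omega
    · have := h.2.1; omega
    · rw [h.2.1]; omega
    · rw [h.2.1]; omega
    · have := h.2.1; omega
    · rw [h.2.1]; omega
  · intro P i h1 h2
    let w : ℕ → Fin n × Fin n × Fin 6 := fun t =>
      (i, (if h : t / 6 < n then ⟨t / 6, h⟩ else ⟨0, hn⟩), ordR (t % 6))
    have hcov : ∀ a : Fin n × Fin 6, ∃ t < 6 * n, w t = (i, a) := by
      rintro ⟨j, s⟩
      obtain ⟨t, ht, hs⟩ := ordR_inv s
      have hj := j.isLt
      refine ⟨6 * j.val + t, by omega, ?_⟩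
      have e1 : (6 * j.val + t) / 6 = j.val := by omega
      have e2 : (6 * j.val + t) % 6 = t := by omega
      simp only [w, e1, e2, hj, dif_pos, hs]
    obtain ⟨a, ha⟩ := h1
    obtain ⟨b, hb⟩ := h2
    obtain ⟨s, hs, hs'⟩ := hcov a
    obtain ⟨t, ht, ht'⟩ := hcov b
    obtain ⟨s', hs1, t', ht1, h3, h4, h5⟩ := walk_step (G := famWall n) (6 * n) w (by
      intro t ht
      have hq : t / 6 < n := by omega
      have hq' : (t + 1) / 6 < n := by omega
      rw [wall_adj]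
      simp only [w, hq, hq', dif_pos]
      by_cases h5 : t % 6 = 5
      · have e1 : (t + 1) % 6 = 0 := by omega
        have e2 : t / 6 + 1 = (t + 1) / 6 := by omega
        rw [h5, e1]
        refine ⟨?_, Or.inl (Or.inr (Or.inl ⟨trivial, e2, by decide, by decide⟩))⟩
        intro h
        have := congrArg (fun x => x.2.2) h
        exact absurd (show ordR 5 = ordR 0 from this) (by decide)
      · have e1 : (t + 1) / 6 = t / 6 := by omega
        have e2 : (t + 1) % 6 = t % 6 + 1 := by omega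
        have key : ordR (t % 6) ≠ ordR (t % 6 + 1) ∧ gad (ordR (t % 6)) (ordR (t % 6 + 1)) := by
          have : t % 6 < 5 := by omega
          generalize t % 6 = r at this
          interval_cases r <;> decide
        rw [e2]
        refine ⟨fun h => key.1 (congrArg (fun x => x.2.2) h), Or.inl (Or.inl ⟨trivial, ?_, key.2⟩)⟩
        simp [e1]) P ⟨s, hs, by rw [hs']; exact ha⟩ ⟨t, ht, by rw [ht']; exact hb⟩
    exact ⟨_, _, h3, h4, h5⟩
  · intro P j h1 h2
    let w : ℕ → Fin n × Fin n × Fin 6 := fun t =>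
      ((if h : t / 6 < n then ⟨t / 6, h⟩ else ⟨0, hn⟩), j, ordC (t % 6))
    have hcov : ∀ (i : Fin n) (s : Fin 6), ∃ t < 6 * n, w t = (i, j, s) := by
      intro i s
      obtain ⟨t, ht, hs⟩ := ordC_inv s
      have hj := i.isLt
      refine ⟨6 * i.val + t, by omega, ?_⟩
      have e1 : (6 * i.val + t) / 6 = i.val := by omega
      have e2 : (6 * i.val + t) % 6 = t := by omega
      simp only [w, e1, e2, hj, dif_pos, hs]
    obtain ⟨a, a', ha⟩ := h1
    obtain ⟨b, b', hb⟩ := h2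
    obtain ⟨s, hs, hs'⟩ := hcov a a'
    obtain ⟨t, ht, ht'⟩ := hcov b b'
    obtain ⟨s', hs1, t', ht1, h3, h4, h5⟩ := walk_step (G := famWall n) (6 * n) w (by
      intro t ht
      have hq : t / 6 < n := by omega
      have hq' : (t + 1) / 6 < n := by omega
      rw [wall_adj]
      simp only [w, hq, hq', dif_pos]
      by_cases h5 : t % 6 = 5
      · have e1 : (t + 1) % 6 = 0 := by omega
        have e2 : t / 6 + 1 = (t + 1) / 6 := by omega
        rw [h5, e1]
        refine ⟨?_, Or.inl (Or.inr (Or.inr ⟨e2, trivial, by decide, by decide⟩))⟩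
        intro h
        have := congrArg (fun x => x.2.2) h
        exact absurd (show ordC 5 = ordC 0 from this) (by decide)
      · have e1 : (t + 1) / 6 = t / 6 := by omega
        have e2 : (t + 1) % 6 = t % 6 + 1 := by omega
        have key : ordC (t % 6) ≠ ordC (t % 6 + 1) ∧
            (gad (ordC (t % 6)) (ordC (t % 6 + 1)) ∨ gad (ordC (t % 6 + 1)) (ordC (t % 6))) := by
          have : t % 6 < 5 := by omega
          generalize t % 6 = r at this
          interval_cases r <;> decide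
        rw [e2]
        refine ⟨fun h => key.1 (congrArg (fun x => x.2.2) h), ?_⟩
        rcases key.2 with h | h
        · exact Or.inl (Or.inl ⟨by simp [e1], trivial, h⟩)
        · exact Or.inr (Or.inl ⟨by simp [e1], trivial, h⟩)) P ⟨s, hs, by rw [hs']; exact ha⟩
          ⟨t, ht, by rw [ht']; exact hb⟩
    exact ⟨_, _, _, _, h3, h4, h5⟩

theorem wall_unbounded : ∀ c N : ℕ, ∃ n ≥ N, ∀ k ≤ c, ¬ CwLE (famWall n) k := by
  intro c N
  refine ⟨N + 6 * c + 2, by omega, fun k hk => wall_not_cw (by omega) (by omega)⟩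

/-- the triangle containing a vertex -/
def tri {n : ℕ} (x : Fin n × Fin n × Fin 6) : Fin n × Fin n × Bool :=
  (x.1, x.2.1, decide (3 ≤ x.2.2))

/-- same triangle: adjacent -/
lemma tri_adj {n : ℕ} {x y : Fin n × Fin n × Fin 6} (h : tri x = tri y) (hne : x ≠ y) :
    (famWall n).Adj x y := by
  obtain ⟨i, j, s⟩ := x
  obtain ⟨i', j', s'⟩ := y
  simp only [tri, Prod.mk.injEq] at h
  obtain ⟨rfl, rfl, h⟩ := h
  rw [wall_adj]
  refine ⟨hne, ?_⟩
  have hs : s ≠ s' := fun h => hne (by rw [h])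
  have key : ∀ s s' : Fin 6, decide (3 ≤ s) = decide (3 ≤ s') → s ≠ s' → gad s s' ∨ gad s' s := by
    decide
  rcases key s s' h hs with h | h
  · exact Or.inl (Or.inl ⟨rfl, rfl, h⟩)
  · exact Or.inr (Or.inl ⟨rfl, rfl, h⟩)

/-- a vertex has at most one neighbour outside its triangle -/
lemma tri_cross {n : ℕ} {x y z : Fin n × Fin n × Fin 6} (hy : (famWall n).Adj x y)
    (hz : (famWall n).Adj x z) (h1 : tri x ≠ tri y) (h2 : tri x ≠ tri z) : y = z := by
  have key : ∀ s s' : Fin 6, decide (3 ≤ s) ≠ decide (3 ≤ s') → (gad s s' ∨ gad s' s) →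
      (s = 2 ∧ s' = 3) ∨ (s = 3 ∧ s' = 2) := by
    decide
  have ty : ∀ y : Fin n × Fin n × Fin 6, (famWall n).Adj x y → tri x ≠ tri y →
      (x.2.2 = 2 ∧ y = (x.1, x.2.1, 3)) ∨ (x.2.2 = 3 ∧ y = (x.1, x.2.1, 2)) ∨
      (x.2.2 = 5 ∧ y.1 = x.1 ∧ x.2.1.val + 1 = y.2.1.val ∧ y.2.2 = 0) ∨
      (x.2.2 = 4 ∧ x.1.val + 1 = y.1.val ∧ y.2.1 = x.2.1 ∧ y.2.2 = 1) ∨
      (x.2.2 = 0 ∧ y.1 = x.1 ∧ y.2.1.val + 1 = x.2.1.val ∧ y.2.2 = 5) ∨
      (x.2.2 = 1 ∧ y.1.val + 1 = x.1.val ∧ y.2.1 = x.2.1 ∧ y.2.2 = 4) := by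
    intro y h hne
    rw [wall_adj] at h
    have kk : x.1 = y.1 → x.2.1 = y.2.1 → (gad x.2.2 y.2.2 ∨ gad y.2.2 x.2.2) →
        (x.2.2 = 2 ∧ y = (x.1, x.2.1, 3)) ∨ (x.2.2 = 3 ∧ y = (x.1, x.2.1, 2)) := by
      intro h1 h2 h3
      have h4 : decide (3 ≤ x.2.2) ≠ decide (3 ≤ y.2.2) := by
        intro h4
        apply hne
        simp only [tri, h1, h2, h4]
      rcases key _ _ h4 h3 with ⟨h5, h6⟩ | ⟨h5, h6⟩
      · exact Or.inl ⟨h5, by rw [h1, h2, ← h6]⟩
      · exact Or.inr ⟨h5, by rw [h1, h2, ← h6]⟩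
    rcases h.2 with (h | h | h) | (h | h | h)
    · rcases kk h.1 h.2.1 (Or.inl h.2.2) with h | h
      · exact Or.inl h
      · exact Or.inr (Or.inl h)
    · exact Or.inr (Or.inr (Or.inl ⟨h.2.2.1, h.1.symm, h.2.1, h.2.2.2⟩))
    · exact Or.inr (Or.inr (Or.inr (Or.inl ⟨h.2.2.1, h.1, h.2.1.symm, h.2.2.2⟩)))
    · rcases kk h.1.symm h.2.1.symm (Or.inr h.2.2) with h | h
      · exact Or.inl h
      · exact Or.inr (Or.inl h)
    · exact Or.inr (Or.inr (Or.inr (Or.inr (Or.inl ⟨h.2.2.2, h.1, h.2.1, h.2.2.1⟩))))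
    · exact Or.inr (Or.inr (Or.inr (Or.inr (Or.inr ⟨h.2.2.2, h.1, h.2.1, h.2.2.1⟩))))
  have e1 := ty y hy h1
  have e2 := ty z hz h2
  obtain ⟨i, j, s⟩ := x
  obtain ⟨i', j', s'⟩ := y
  obtain ⟨i'', j'', s''⟩ := z
  simp only [Prod.mk.injEq] at e1 e2 ⊢
  have n1 : (2 : Fin 6) ≠ 3 := by decide
  have n2 : (2 : Fin 6) ≠ 5 := by decide
  rcases e1 with e1 | e1 | e1 | e1 | e1 | e1 <;> rcases e2 with e2 | e2 | e2 | e2 | e2 | e2 <;>
    first
    | (exfalso; have a1 := e1.1; have a2 := e2.1; rw [a1] at a2; revert a2; decide)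
    | exact ⟨e1.2.1.trans e2.2.1.symm, e1.2.2.1.trans e2.2.2.1.symm, e1.2.2.2.trans e2.2.2.2.symm⟩
    | exact ⟨e1.2.1.trans e2.2.1.symm, Fin.ext (by omega), e1.2.2.2.trans e2.2.2.2.symm⟩
    | exact ⟨Fin.ext (by omega), e1.2.2.1.trans e2.2.2.1.symm, e1.2.2.2.trans e2.2.2.2.symm⟩

/-- two of three neighbours of a vertex are adjacent; one is in its triangle -/
lemma wall_claw {n : ℕ} {x a b c : Fin n × Fin n × Fin 6} (ha : (famWall n).Adj x a)
    (hb : (famWall n).Adj x b) (hc : (famWall n).Adj x c) (hab : a ≠ b) (hac : a ≠ c) (hbc : b ≠ c) :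
    (tri a = tri x ∧ tri b = tri x) ∨ (tri a = tri x ∧ tri c = tri x) ∨
      (tri b = tri x ∧ tri c = tri x) := by
  by_cases h1 : tri x = tri a
  · by_cases h2 : tri x = tri b
    · exact Or.inl ⟨h1.symm, h2.symm⟩
    · by_cases h3 : tri x = tri c
      · exact Or.inr (Or.inl ⟨h1.symm, h3.symm⟩)
      · exact absurd (tri_cross hb hc h2 h3) hbc
  · by_cases h2 : tri x = tri b
    · by_cases h3 : tri x = tri c
      · exact Or.inr (Or.inr ⟨h2.symm, h3.symm⟩)
      · exact absurd (tri_cross ha hc h1 h3) hac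
    · exact absurd (tri_cross ha hb h1 h2) hab

/-- fibres of `tri` have at most three elements -/
lemma tri_fib {n : ℕ} (f : Fin 4 → Fin n × Fin n × Fin 6) (hf : Function.Injective f)
    (h : ∀ i, tri (f i) = tri (f 0)) : False := by
  have h1 : ∀ i, (f i).1 = (f 0).1 ∧ (f i).2.1 = (f 0).2.1 ∧
      decide (3 ≤ (f i).2.2) = decide (3 ≤ (f 0).2.2) := by
    intro i
    have := h i
    simpa [tri] using this
  have h2 : Function.Injective (fun i => (f i).2.2) := by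
    intro i j hij
    apply hf
    have a1 := h1 i
    have a2 := h1 j
    refine Prod.ext (a1.1.trans a2.1.symm) (Prod.ext (a1.2.1.trans a2.2.1.symm) hij)
  have key : ∀ a b c d : Fin 6, a ≠ b → a ≠ c → a ≠ d → b ≠ c → b ≠ d → c ≠ d →
      decide (3 ≤ b) = decide (3 ≤ a) → decide (3 ≤ c) = decide (3 ≤ a) →
      decide (3 ≤ d) = decide (3 ≤ a) → False := by decide
  exact key _ _ _ _ (h2.ne (a₁ := 0) (a₂ := 1) (by decide)) (h2.ne (a₁ := 0) (a₂ := 2) (by decide))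
    (h2.ne (a₁ := 0) (a₂ := 3) (by decide)) (h2.ne (a₁ := 1) (a₂ := 2) (by decide))
    (h2.ne (a₁ := 1) (a₂ := 3) (by decide)) (h2.ne (a₁ := 2) (a₂ := 3) (by decide))
    (h1 1).2.2 (h1 2).2.2 (h1 3).2.2

end Pool.Agent.Helper917ITM
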