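import Pool.Agent.Helper917_ITM.Subdiv
import Pool.Agent.H175R2.Conn

/-! Two-connected vertex sets: a vertex can be deleted, or there is a vertex of degree two. -/

namespace Pool.Agent.Helper917ITM

open Pool.Agent.H175R2 Finset Classical

variable {V : Type} {G : SimpleGraph V}

/-- `D` induces a 2-connected graph -/
structure TwoC (G : SimpleGraph V) (D : Finset V) : Prop where
  card : 3 ≤ D.card
  conn : Cn G D
  del : ∀ v ∈ D, Cn G (D.erase v)

/-- `v` has exactly the neighbours `a`, `b` in `D` -/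
structure Deg2 (G : SimpleGraph V) (D : Finset V) (v a b : V) : Prop where
  hv : v ∈ D
  ha : a ∈ D
  hb : b ∈ D
  ne : a ≠ b
  va : G.Adj v a
  vb : G.Adj v b
  only : ∀ x ∈ D, G.Adj v x → x = a ∨ x = b

/-- every vertex has degree two -/
def Cyc (G : SimpleGraph V) (D : Finset V) : Prop := ∀ v ∈ D, ∃ a b, Deg2 G D v a b

lemma TwoC.out {D : Finset V} (h : TwoC G D) {S : Finset V} (hS : S ⊆ D) (hne : S.Nonempty) {z : V}
    (hz : z ∈ D) (hzS : z ∉ S) {w : V} (hw : w ∈ D) (hwS : w ∉ S) (hwz : w ≠ z) :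
    ∃ s ∈ S, ∃ t ∈ D, t ∉ S ∧ t ≠ z ∧ G.Adj s t := by
  obtain ⟨x, hx, y, hy, hxy⟩ := (h.del z hz).2 S
    (fun x hx => mem_erase.2 ⟨by rintro rfl; exact hzS hx, hS hx⟩) hne
    ⟨w, mem_sdiff.2 ⟨mem_erase.2 ⟨hwz, hw⟩, hwS⟩⟩
  rw [mem_sdiff, mem_erase] at hy
  exact ⟨x, hx, y, hy.1.2, hy.2, hy.1.1, hxy⟩

/-- a fragment with boundary `u`, `v` -/
structure Frag (G : SimpleGraph V) (D : Finset V) (F : Finset V) (u v : V) : Prop where
  sub : F ⊆ D
  ne : F.Nonempty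
  hu : u ∈ D
  hv : v ∈ D
  uF : u ∉ F
  vF : v ∉ F
  uv : u ≠ v
  rest : ∃ w ∈ D, w ∉ F ∧ w ≠ u ∧ w ≠ v
  nb : ∀ x ∈ F, ∀ y ∈ D, G.Adj x y → y ∈ F ∨ y = u ∨ y = v

lemma exists_split {D : Finset V} (h : TwoC G D) (h4 : 4 ≤ D.card)
    (hno : ∀ v ∈ D, ¬ TwoC G (D.erase v)) {x : V} (hx : x ∈ D) :
    ∃ y ∈ D, y ≠ x ∧ ∃ A B : Finset V, A.Nonempty ∧ B.Nonempty ∧ Disjoint A B ∧
      (∀ z, z ∈ D ↔ z = x ∨ z = y ∨ z ∈ A ∨ z ∈ B) ∧ x ∉ A ∧ x ∉ B ∧ y ∉ A ∧ y ∉ B ∧
      ∀ a ∈ A, ∀ b ∈ B, ¬ G.Adj a b := by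
  have h1 := hno x hx
  have hc : (D.erase x).card = D.card - 1 := card_erase_of_mem hx
  have h2 : ∃ y ∈ D.erase x, ¬ Cn G ((D.erase x).erase y) := by
    by_contra hcon
    push Not at hcon
    exact h1 ⟨by omega, h.del x hx, hcon⟩
  obtain ⟨y, hy, hcn⟩ := h2
  have hc2 : ((D.erase x).erase y).card = D.card - 2 := by
    rw [card_erase_of_mem hy]; omega
  have hne : ((D.erase x).erase y).Nonempty := card_pos.1 (by omega)
  unfold Cn at hcn
  push Not at hcn
  obtain ⟨T, hT, hTn, hTn', hTe⟩ := hcn hne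
  have hyx := (mem_erase.1 hy).1
  have hyD := (mem_erase.1 hy).2
  refine ⟨y, hyD, hyx, T, (D.erase x).erase y \ T, hTn, hTn', disjoint_sdiff, ?_, ?_, ?_, ?_, ?_,
    hTe⟩
  · intro z
    constructor
    · intro hz
      by_cases h1 : z = x
      · exact Or.inl h1
      by_cases h2 : z = y
      · exact Or.inr (Or.inl h2)
      by_cases h3 : z ∈ T
      · exact Or.inr (Or.inr (Or.inl h3))
      · exact Or.inr (Or.inr (Or.inr (mem_sdiff.2 ⟨mem_erase.2 ⟨h2, mem_erase.2 ⟨h1, hz⟩⟩, h3⟩)))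
    · rintro (rfl | rfl | h | h)
      · exact hx
      · exact hyD
      · exact mem_of_mem_erase (mem_of_mem_erase (hT h))
      · exact mem_of_mem_erase (mem_of_mem_erase (mem_sdiff.1 h).1)
  · intro h
    exact (mem_erase.1 (mem_of_mem_erase (hT h))).1 rfl
  · intro h
    exact (mem_erase.1 (mem_of_mem_erase (mem_sdiff.1 h).1)).1 rfl
  · intro h
    exact (mem_erase.1 (hT h)).1 rfl
  · intro h
    exact (mem_erase.1 (mem_sdiff.1 h).1).1 rfl

/-- the case where the second cut vertex is not in the opposite part -/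
lemma frag_case1 {D : Finset V} (h : TwoC G D) {F : Finset V} {u v : V} (hF : Frag G D F u v)
    {x y : V} (hx : x ∈ F) (hy : y ∈ D) (hyx : y ≠ x) {A B : Finset V} (hB : B.Nonempty)
    (hA : A.Nonempty) (hd : Disjoint A B) (hcov : ∀ z, z ∈ D ↔ z = x ∨ z = y ∨ z ∈ A ∨ z ∈ B)
    (hxA : x ∉ A) (hxB : x ∉ B) (hyA : y ∉ A) (hyB : y ∉ B) (hno : ∀ a ∈ A, ∀ b ∈ B, ¬ G.Adj a b)
    (hyO : y ∈ F ∨ y = u ∨ y = v) {w : V} (hwA : w ∈ A) (hwF : w ∉ F) (hwu : w ≠ u) (hwv : w ≠ v) :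
    ∃ F' u' v', Frag G D F' u' v' ∧ F'.card < F.card := by
  have hAD : A ⊆ D := fun z hz => (hcov z).2 (Or.inr (Or.inr (Or.inl hz)))
  have hBD : B ⊆ D := fun z hz => (hcov z).2 (Or.inr (Or.inr (Or.inr hz)))
  have dAB : ∀ z, z ∈ A → z ∈ B → False := fun z h1 h2 => (Finset.disjoint_left.1 hd) h1 h2
  -- neighbourhoods of `C ∩ O`
  have key : ∀ C C' : Finset V, C ⊆ D → (∀ z, z ∈ D ↔ z = x ∨ z = y ∨ z ∈ C ∨ z ∈ C') →
      y ∉ C → (∀ z, z ∈ C → z ∈ C' → False) →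
      (∀ a ∈ C, ∀ b ∈ C', ¬ G.Adj a b) → ∀ w ∈ C, w ∉ F → w ≠ u → w ≠ v →
      ∀ p q, (p = u ∧ q = v) ∨ (p = v ∧ q = u) → p ∈ C ∨ p = y := by
    intro C C' hCD hcov hyC hCC' hno w hw hwF hwu hwv p q hpq
    have hpD : p ∈ D := by rcases hpq with ⟨rfl, _⟩ | ⟨rfl, _⟩; exacts [hF.hu, hF.hv]
    have hqD : q ∈ D := by rcases hpq with ⟨_, rfl⟩ | ⟨_, rfl⟩; exacts [hF.hv, hF.hu]
    have hpq' : p ≠ q := by
      rcases hpq with ⟨rfl, rfl⟩ | ⟨rfl, rfl⟩
      · exact hF.uv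
      · exact hF.uv.symm
    obtain ⟨s, hs, t, ht, htS, htq, hst⟩ := h.out (S := C.filter (fun z => z ∉ F ∧ z ≠ u ∧ z ≠ v))
      ((filter_subset _ _).trans hCD) ⟨w, mem_filter.2 ⟨hw, hwF, hwu, hwv⟩⟩ (z := q) hqD
      (by
        rw [mem_filter]
        rintro ⟨_, _, h1, h2⟩
        rcases hpq with ⟨_, rfl⟩ | ⟨_, rfl⟩
        · exact h2 rfl
        · exact h1 rfl) (w := p) hpD (by
        rw [mem_filter]
        rintro ⟨_, _, h1, h2⟩
        rcases hpq with ⟨rfl, _⟩ | ⟨rfl, _⟩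
        · exact h1 rfl
        · exact h2 rfl) hpq'
    rw [mem_filter] at hs htS
    obtain ⟨hsC, hsF, hsu, hsv⟩ := hs
    have htF : t ∉ F := by
      intro htF
      rcases hF.nb t htF s (hCD hsC) hst.symm with h1 | h1 | h1
      · exact hsF h1
      · exact hsu h1
      · exact hsv h1
    have htC' : t ∉ C' := fun h => hno s hsC t h hst
    have htx : t ≠ x := by rintro rfl; exact htF hx
    by_cases hty : t = y
    · subst hty
      rcases hyO with h1 | h1 | h1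
      · exact absurd h1 htF
      · rcases hpq with ⟨rfl, rfl⟩ | ⟨rfl, rfl⟩
        · exact Or.inr h1.symm
        · exact absurd h1 htq
      · rcases hpq with ⟨rfl, rfl⟩ | ⟨rfl, rfl⟩
        · exact absurd h1 htq
        · exact Or.inr h1.symm
    · have htC : t ∈ C := by
        rcases (hcov t).1 ht with h1 | h1 | h1 | h1
        · exact absurd h1 htx
        · exact absurd h1 hty
        · exact h1
        · exact absurd h1 htC'
      have htuv : t = u ∨ t = v := by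
        by_contra hc
        push Not at hc
        exact htS ⟨htC, htF, hc.1, hc.2⟩
      left
      rcases hpq with ⟨rfl, rfl⟩ | ⟨rfl, rfl⟩
      · rcases htuv with rfl | rfl
        · exact htC
        · exact absurd rfl htq
      · rcases htuv with rfl | rfl
        · exact absurd rfl htq
        · exact htC
  have hcov' : ∀ z, z ∈ D ↔ z = x ∨ z = y ∨ z ∈ B ∨ z ∈ A := by
    intro z; rw [hcov z]; tauto
  have hno' : ∀ a ∈ B, ∀ b ∈ A, ¬ G.Adj a b := fun a ha b hb h => hno b hb a ha h.symm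
  have uA := key A B hAD hcov hyA dAB hno w hwA hwF hwu hwv u v (Or.inl ⟨rfl, rfl⟩)
  have vA := key A B hAD hcov hyA dAB hno w hwA hwF hwu hwv v u (Or.inr ⟨rfl, rfl⟩)
  have hBF : ∀ b ∈ B, b ∈ F := by
    intro b hb
    by_contra hbF
    have hbu : b ≠ u := by
      rintro rfl
      rcases uA with h1 | h1
      · exact dAB _ h1 hb
      · exact hyB (h1 ▸ hb)
    have hbv : b ≠ v := by
      rintro rfl
      rcases vA with h1 | h1
      · exact dAB _ h1 hb
      · exact hyB (h1 ▸ hb)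
    have uB := key B A hBD hcov' hyB (fun z h1 h2 => dAB z h2 h1) hno' b hb hbF hbu hbv u v
      (Or.inl ⟨rfl, rfl⟩)
    have vB := key B A hBD hcov' hyB (fun z h1 h2 => dAB z h2 h1) hno' b hb hbF hbu hbv v u
      (Or.inr ⟨rfl, rfl⟩)
    have hu : u = y := by
      rcases uA with h1 | h1
      · rcases uB with h2 | h2
        · exact absurd (dAB _ h1 h2) id
        · exact h2
      · exact h1
    have hv : v = y := by
      rcases vA with h1 | h1
      · rcases vB with h2 | h2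
        · exact absurd (dAB _ h1 h2) id
        · exact h2
      · exact h1
    exact hF.uv (hu.trans hv.symm)
  refine ⟨B, x, y, ⟨hBD, hB, hF.sub hx, hy, hxB, hyB, hyx.symm, ?_, ?_⟩, ?_⟩
  · obtain ⟨a, ha⟩ := hA
    exact ⟨a, hAD ha, fun h => dAB _ ha h, by rintro rfl; exact hxA ha, by rintro rfl; exact hyA ha⟩
  · intro b hb z hz hbz
    rcases (hcov z).1 hz with h1 | h1 | h1 | h1
    · exact Or.inr (Or.inl h1)
    · exact Or.inr (Or.inr h1)
    · exact absurd hbz (hno' b hb z h1)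
    · exact Or.inl h1
  · apply card_lt_card
    refine ⟨hBF, fun h => hxB (h hx)⟩

/-- the second cut vertex is in the opposite part: both boundary vertices on the same side is
impossible -/
lemma frag_case2 {D : Finset V} (h : TwoC G D) {F : Finset V} {u v : V} (hF : Frag G D F u v)
    {x y : V} (hx : x ∈ F) (hy : y ∈ D) {A B : Finset V} (hB : B.Nonempty)
    (hd : Disjoint A B) (hcov : ∀ z, z ∈ D ↔ z = x ∨ z = y ∨ z ∈ A ∨ z ∈ B)
    (hxB : x ∉ B) (hyB : y ∉ B) (hno : ∀ a ∈ A, ∀ b ∈ B, ¬ G.Adj a b)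
    (hyF : y ∉ F) (huA : u ∈ A) (hvA : v ∈ A) (hyu : y ≠ u) : False := by
  have hBD : B ⊆ D := fun z hz => (hcov z).2 (Or.inr (Or.inr (Or.inr hz)))
  have dAB : ∀ z, z ∈ A → z ∈ B → False := fun z h1 h2 => (Finset.disjoint_left.1 hd) h1 h2
  have hBF : ∀ b ∈ B, b ∉ F := by
    intro b hb hbF
    obtain ⟨s, hs, t, ht, htS, htx, hst⟩ := h.out (S := B.filter (fun z => z ∈ F))
      ((filter_subset _ _).trans hBD) ⟨b, mem_filter.2 ⟨hb, hbF⟩⟩ (z := x) (hF.sub hx)
      (fun h => hxB (mem_filter.1 h).1) (w := u) hF.hu (fun h => hF.uF (mem_filter.1 h).2)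
      (by rintro rfl; exact hF.uF hx)
    rw [mem_filter] at hs htS
    have htA : t ∉ A := fun h => hno t h s hs.1 hst.symm
    rcases hF.nb s hs.2 t ht hst with h1 | rfl | rfl
    · rcases (hcov t).1 ht with h2 | h2 | h2 | h2
      · exact htx h2
      · exact hyF (h2 ▸ h1)
      · exact htA h2
      · exact htS ⟨h2, h1⟩
    · exact htA huA
    · exact htA hvA
  obtain ⟨b, hb⟩ := hB
  obtain ⟨s, hs, t, ht, htS, hty, hst⟩ := h.out (S := B) hBD ⟨b, hb⟩ (z := y) hy hyB (w := u) hF.hu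
    (fun h => dAB _ huA h) hyu.symm
  have htA : t ∉ A := fun h => hno t h s hs hst.symm
  rcases (hcov t).1 ht with h2 | h2 | h2 | h2
  · subst h2
    rcases hF.nb t hx s (hBD hs) hst.symm with h1 | rfl | rfl
    · exact hBF s hs h1
    · exact dAB _ huA hs
    · exact dAB _ hvA hs
  · exact hty h2
  · exact htA h2
  · exact htS h2

/-- boundary vertices on different sides -/
lemma frag_case3 {D : Finset V} {F : Finset V} {u v : V} (hF : Frag G D F u v)
    {x y : V} (hx : x ∈ F) {A B : Finset V}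
    (hcov : ∀ z, z ∈ D ↔ z = x ∨ z = y ∨ z ∈ A ∨ z ∈ B)
    (hxA : x ∉ A) (hno : ∀ a ∈ A, ∀ b ∈ B, ¬ G.Adj a b)
    (hyF : y ∉ F) (hvB : v ∈ B) (hvA : v ∉ A) {a : V} (ha : a ∈ A) (haF : a ∈ F) :
    ∃ F' u' v', Frag G D F' u' v' ∧ F'.card < F.card := by
  have hAD : A ⊆ D := fun z hz => (hcov z).2 (Or.inr (Or.inr (Or.inl hz)))
  refine ⟨A.filter (fun z => z ∈ F), x, u, ⟨(filter_subset _ _).trans hAD,
    ⟨a, mem_filter.2 ⟨ha, haF⟩⟩, hF.sub hx, hF.hu, fun h => hxA (mem_filter.1 h).1,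
    fun h => hF.uF (mem_filter.1 h).2, by rintro rfl; exact hF.uF hx,
    ⟨v, hF.hv, fun h => hvA (mem_filter.1 h).1, by rintro rfl; exact hF.vF hx, hF.uv.symm⟩, ?_⟩, ?_⟩
  · intro s hs t ht hst
    rw [mem_filter] at hs
    rw [mem_filter]
    have htB : t ∉ B := fun h => hno s hs.1 t h hst
    rcases hF.nb s hs.2 t ht hst with h1 | h1 | h1
    · rcases (hcov t).1 ht with h2 | h2 | h2 | h2
      · exact Or.inr (Or.inl h2)
      · exact absurd (h2 ▸ h1) hyF
      · exact Or.inl ⟨h2, h1⟩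
      · exact absurd h2 htB
    · exact Or.inr (Or.inr h1)
    · exact absurd (h1 ▸ hvB) htB
  · apply card_lt_card
    refine ⟨fun z hz => (mem_filter.1 hz).2, fun h => ?_⟩
    exact hxA (mem_filter.1 (h hx)).1

lemma Frag.symm {D F : Finset V} {u v : V} (h : Frag G D F u v) : Frag G D F v u :=
  ⟨h.sub, h.ne, h.hv, h.hu, h.vF, h.uF, h.uv.symm, by
    obtain ⟨w, h1, h2, h3, h4⟩ := h.rest
    exact ⟨w, h1, h2, h4, h3⟩, fun x hx y hy hxy => by
    rcases h.nb x hx y hy hxy with h1 | h1 | h1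
    · exact Or.inl h1
    · exact Or.inr (Or.inr h1)
    · exact Or.inr (Or.inl h1)⟩

/-- A 2-connected set with at least four vertices has a vertex whose deletion leaves a 2-connected
set, or a vertex of degree two. -/
theorem TwoC.reduce {D : Finset V} (h : TwoC G D) (h4 : 4 ≤ D.card) :
    (∃ v ∈ D, TwoC G (D.erase v)) ∨ ∃ v a b, Deg2 G D v a b := by
  by_contra hcon
  push Not at hcon
  obtain ⟨hno, hnd⟩ := hcon
  -- a smallest fragment
  have hex : ∃ F u v, Frag G D F u v := by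
    obtain ⟨x, hx⟩ := h.conn.1
    obtain ⟨y, hy, hyx, A, B, hA, hB, hd, hcov, h1, h2, h3, h5, h6⟩ := exists_split h h4 hno hx
    have hAD : A ⊆ D := fun z hz => (hcov z).2 (Or.inr (Or.inr (Or.inl hz)))
    have hBD : B ⊆ D := fun z hz => (hcov z).2 (Or.inr (Or.inr (Or.inr hz)))
    refine ⟨A, x, y, ⟨hAD, hA, hx, hy, h1, h3, hyx.symm, ?_, ?_⟩⟩
    · obtain ⟨b, hb⟩ := hB
      exact ⟨b, hBD hb, fun h => (Finset.disjoint_left.1 hd) h hb, by rintro rfl; exact h2 hb,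
        by rintro rfl; exact h5 hb⟩
    · intro a ha z hz haz
      rcases (hcov z).1 hz with h7 | h7 | h7 | h7
      · exact Or.inr (Or.inl h7)
      · exact Or.inr (Or.inr h7)
      · exact Or.inl h7
      · exact absurd haz (h6 a ha z h7)
  obtain ⟨F, u, v, hF, hmin⟩ : ∃ F u v, Frag G D F u v ∧
      ∀ F' u' v', Frag G D F' u' v' → F.card ≤ F'.card := by
    have hex' : ∃ n, ∃ F u v, Frag G D F u v ∧ F.card = n := by
      obtain ⟨F, u, v, hF⟩ := hex
      exact ⟨_, F, u, v, hF, rfl⟩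
    obtain ⟨F, u, v, hF, hc⟩ := Nat.find_spec hex'
    refine ⟨F, u, v, hF, fun F' u' v' hF' => ?_⟩
    rw [hc]
    exact Nat.find_min' hex' ⟨F', u', v', hF', rfl⟩
  have hmin' : ¬ ∃ F' u' v', Frag G D F' u' v' ∧ F'.card < F.card := by
    rintro ⟨F', u', v', h1, h2⟩
    have := hmin F' u' v' h1
    omega
  obtain ⟨x, hx⟩ := hF.ne
  have hxD := hF.sub hx
  -- `F = {x}` is impossible
  have hF1 : F ≠ {x} := by
    intro he
    have nb : ∀ y ∈ D, G.Adj x y → y = u ∨ y = v := by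
      intro y hy hxy
      rcases hF.nb x hx y hy hxy with h1 | h1
      · rw [he, mem_singleton] at h1
        subst h1; exact absurd rfl hxy.ne
      · exact h1
    have hxu : x ≠ u := by rintro rfl; exact hF.uF hx
    have hxv : x ≠ v := by rintro rfl; exact hF.vF hx
    have e1 : G.Adj x v := by
      obtain ⟨s, hs, t, ht, _, htu, hst⟩ := h.out (S := {x}) (by simpa using hxD) ⟨x, by simp⟩
        (z := u) hF.hu (by simpa using hxu.symm) (w := v) hF.hv (by simpa using hxv.symm) hF.uv.symm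
      rw [mem_singleton] at hs
      subst hs
      rcases nb t ht hst with h1 | h1
      · exact absurd h1 htu
      · rw [← h1]; exact hst
    have e2 : G.Adj x u := by
      obtain ⟨s, hs, t, ht, _, htu, hst⟩ := h.out (S := {x}) (by simpa using hxD) ⟨x, by simp⟩
        (z := v) hF.hv (by simpa using hxv.symm) (w := u) hF.hu (by simpa using hxu.symm) hF.uv
      rw [mem_singleton] at hs
      subst hs
      rcases nb t ht hst with h1 | h1
      · rw [← h1]; exact hst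
      · exact absurd h1 htu
    exact hnd x u v ⟨hxD, hF.hu, hF.hv, hF.uv, e2, e1, nb⟩
  obtain ⟨y, hy, hyx, A, B, hA, hB, hd, hcov, hxA, hxB, hyA, hyB, hAB⟩ :=
    exists_split h h4 hno hxD
  have hcov' : ∀ z, z ∈ D ↔ z = x ∨ z = y ∨ z ∈ B ∨ z ∈ A := by
    intro z; rw [hcov z]; tauto
  have hBA : ∀ a ∈ B, ∀ b ∈ A, ¬ G.Adj a b := fun a ha b hb h => hAB b hb a ha h.symm
  have dAB : ∀ z, z ∈ A → z ∈ B → False := fun z h1 h2 => (Finset.disjoint_left.1 hd) h1 h2
  by_cases hyO : y ∈ F ∨ y = u ∨ y = v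
  · obtain ⟨w, hwD, hwF, hwu, hwv⟩ := hF.rest
    have hwx : w ≠ x := by rintro rfl; exact hwF hx
    have hwy : w ≠ y := by
      rintro rfl
      rcases hyO with h1 | h1 | h1
      · exact hwF h1
      · exact hwu h1
      · exact hwv h1
    rcases (hcov w).1 hwD with h1 | h1 | h1 | h1
    · exact hwx h1
    · exact hwy h1
    · exact hmin' (frag_case1 h hF hx hy hyx hB hA hd hcov hxA hxB hyA hyB hAB hyO h1 hwF hwu hwv)
    · exact hmin' (frag_case1 h hF hx hy hyx hA hB hd.symm hcov' hxB hxA hyB hyA hBA hyO h1 hwF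
        hwu hwv)
  · push Not at hyO
    obtain ⟨hyF, hyu, hyv⟩ := hyO
    have hux : u ≠ x := by rintro rfl; exact hF.uF hx
    have hvx : v ≠ x := by rintro rfl; exact hF.vF hx
    have hu := ((hcov u).1 hF.hu).resolve_left hux |>.resolve_left hyu.symm
    have hv := ((hcov v).1 hF.hv).resolve_left hvx |>.resolve_left hyv.symm
    -- an element of `F` other than `x`
    obtain ⟨a, haF, hax⟩ : ∃ a ∈ F, a ≠ x := by
      by_contra hc
      push Not at hc
      exact hF1 ((Finset.eq_singleton_iff_unique_mem).2 ⟨hx, hc⟩)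
    have hay : a ≠ y := by rintro rfl; exact hyF haF
    have ha := ((hcov a).1 (hF.sub haF)).resolve_left hax |>.resolve_left hay
    rcases hu with hu | hu <;> rcases hv with hv | hv
    · exact frag_case2 h hF hx hy hB hd hcov hxB hyB hAB hyF hu hv hyu
    · rcases ha with ha | ha
      · exact hmin' (frag_case3 hF hx hcov hxA hAB hyF hv (fun h => dAB _ h hv) ha haF)
      · exact hmin' (frag_case3 hF.symm hx hcov' hxB hBA hyF hu (fun h => dAB _ hu h) ha haF)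
    · rcases ha with ha | ha
      · exact hmin' (frag_case3 hF.symm hx hcov hxA hAB hyF hu (fun h => dAB _ h hu) ha haF)
      · exact hmin' (frag_case3 hF hx hcov' hxB hBA hyF hv (fun h => dAB _ hv h) ha haF)
    · exact frag_case2 h hF hx hy hA hd.symm hcov' hxA hyA hBA hyF hu hv hyu

/-- suppressing a vertex keeps connectivity -/
lemma Cn.suppress {E : Finset V} {v a b : V} (h : Cn G E) (hv : v ∈ E) (hne : (E.erase v).Nonempty)
    (hN : ∀ x ∈ E, G.Adj v x → x = a ∨ x = b) (hab : a ≠ b) : Cn (addE G a b) (E.erase v) := by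
  refine ⟨hne, fun T hT hTn hTn' => ?_⟩
  have hvT : v ∉ T := fun h => (mem_erase.1 (hT h)).1 rfl
  by_cases c1 : a ∈ T ∧ b ∈ E.erase v \ T
  · exact ⟨a, c1.1, b, c1.2, (addE_adj hab).2 (Or.inr (Or.inl ⟨rfl, rfl⟩))⟩
  by_cases c2 : b ∈ T ∧ a ∈ E.erase v \ T
  · exact ⟨b, c2.1, a, c2.2, (addE_adj hab).2 (Or.inr (Or.inr ⟨rfl, rfl⟩))⟩
  by_cases c3 : a ∈ T ∨ b ∈ T
  · obtain ⟨p, hp, q, hq, hpq⟩ := h.2 (insert v T) (by
      intro z hz
      rcases mem_insert.1 hz with rfl | hz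
      · exact hv
      · exact mem_of_mem_erase (hT hz)) ⟨v, mem_insert_self _ _⟩ (by
      obtain ⟨w, hw⟩ := hTn'
      rw [mem_sdiff, mem_erase] at hw
      exact ⟨w, mem_sdiff.2 ⟨hw.1.2, by
        rw [mem_insert, not_or]; exact ⟨hw.1.1, hw.2⟩⟩⟩)
    rw [mem_sdiff, mem_insert, not_or] at hq
    obtain ⟨hqE, hqv, hqT⟩ := hq
    have hq' : q ∈ E.erase v \ T := mem_sdiff.2 ⟨mem_erase.2 ⟨hqv, hqE⟩, hqT⟩
    rcases mem_insert.1 hp with rfl | hpT
    · exfalso
      rcases hN q hqE hpq with rfl | rfl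
      · exact c2 ⟨c3.resolve_left hqT, hq'⟩
      · exact c1 ⟨c3.resolve_right hqT, hq'⟩
    · exact ⟨p, hpT, q, hq', (addE_adj hab).2 (Or.inl hpq)⟩
  · push Not at c3
    obtain ⟨p, hp, q, hq, hpq⟩ := h.2 T (hT.trans (erase_subset _ _)) hTn (by
      obtain ⟨w, hw⟩ := hTn'
      rw [mem_sdiff, mem_erase] at hw
      exact ⟨w, mem_sdiff.2 ⟨hw.1.2, hw.2⟩⟩)
    rw [mem_sdiff] at hq
    have hqv : q ≠ v := by
      rintro rfl
      have hpE : p ∈ E := mem_of_mem_erase (hT hp)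
      rcases hN p hpE hpq.symm with rfl | rfl
      · exact c3.1 hp
      · exact c3.2 hp
    exact ⟨p, hp, q, mem_sdiff.2 ⟨mem_erase.2 ⟨hqv, hq.1⟩, hq.2⟩, (addE_adj hab).2 (Or.inl hpq)⟩

lemma TwoC.suppress {D : Finset V} (h : TwoC G D) (h4 : 4 ≤ D.card) {v a b : V}
    (hd : Deg2 G D v a b) : TwoC (addE G a b) (D.erase v) := by
  have hc : (D.erase v).card = D.card - 1 := card_erase_of_mem hd.hv
  refine ⟨by omega, Cn.suppress h.conn hd.hv (card_pos.1 (by omega)) hd.only hd.ne, ?_⟩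
  intro z hz
  rw [erase_right_comm]
  have hvz : v ≠ z := fun h => (mem_erase.1 hz).1 h.symm
  have hz' := (mem_erase.1 hz).2
  refine Cn.suppress (h.del z hz') (mem_erase.2 ⟨hvz, hd.hv⟩) ?_
    (fun x hx => hd.only x (mem_of_mem_erase hx)) hd.ne
  apply card_pos.1
  rw [card_erase_of_mem (mem_erase.2 ⟨hvz, hd.hv⟩), card_erase_of_mem hz']
  omega

lemma Cn.congr {G' : SimpleGraph V} {E : Finset V} (h : Cn G E)
    (he : ∀ x ∈ E, ∀ y ∈ E, G.Adj x y → G'.Adj x y) : Cn G' E := by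
  refine ⟨h.1, fun T hT hn hn' => ?_⟩
  obtain ⟨x, hx, y, hy, hxy⟩ := h.2 T hT hn hn'
  exact ⟨x, hx, y, hy, he x (hT hx) y (mem_sdiff.1 hy).1 hxy⟩

lemma TwoC.congr {G' : SimpleGraph V} {D : Finset V} (h : TwoC G D)
    (he : ∀ x ∈ D, ∀ y ∈ D, G.Adj x y → G'.Adj x y) : TwoC G' D :=
  ⟨h.card, Cn.congr h.conn he, fun v hv => Cn.congr (h.del v hv) fun x hx y hy =>
    he x (mem_of_mem_erase hx) y (mem_of_mem_erase hy)⟩

end Pool.Agent.Helper917ITM
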