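import Pool.Agent.Helper917_ITM.Inv
import Pool.Agent.Helper917_ITM.Trunc
import Pool.Agent.H175R2.Fam
import Pool.Agent.R36.CwBase

/-! The unbounded cases. -/

namespace Pool.Agent.Helper917ITM

open Pool.Agent.H175R2 Pool.Agent.R36

variable {W : Type} {H : SimpleGraph W}

lemma not_bdd (h : ∀ c, ∃ (V : Type) (_ : Finite V) (_ : Nonempty V) (G : SimpleGraph V),
    ¬ IsITM H G ∧ ∀ k ≤ c, ¬ CwLE G k) : ¬ BddITM H := by
  rintro ⟨c, hc⟩
  obtain ⟨V, _, _, G, h1, h2⟩ := h c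
  exact h2 _ (hc V G h1) (cwLE_cliqueWidth G)

theorem unb1 (h : P1 H) : ¬ BddITM H := by
  apply not_bdd
  intro c
  obtain ⟨n, hn, h2⟩ := famCobip_unbounded c 1
  refine ⟨_, inferInstance, ⟨Sum.inl ⟨0, hn⟩⟩, famCobip n, ?_, h2⟩
  rintro ⟨s, hs⟩
  obtain ⟨x, y, z, h1, h2, h3, h4, h5, h6⟩ := P1_up (P1_sub hs h)
  have key1 : ∀ a b, (a : Fin n) ≠ b → (famCobip n).Adj (Sum.inl a) (Sum.inl b) := by
    intro a b hab
    simp only [famCobip, SimpleGraph.fromRel_adj]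
    exact ⟨by simpa using hab, Or.inl (Or.inl ⟨a, b, rfl, rfl⟩)⟩
  have key2 : ∀ a b, (a : Fin n × Fin n) ≠ b → (famCobip n).Adj (Sum.inr a) (Sum.inr b) := by
    intro a b hab
    simp only [famCobip, SimpleGraph.fromRel_adj]
    exact ⟨by simpa using hab, Or.inl (Or.inr (Or.inl ⟨a, b, rfl, rfl⟩))⟩
  rcases x with x | x <;> rcases y with y | y <;> rcases z with z | z
  · exact h4 (key1 _ _ (fun h => h1 (by rw [h])))
  · exact h4 (key1 _ _ (fun h => h1 (by rw [h])))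
  · exact h5 (key1 _ _ (fun h => h2 (by rw [h])))
  · exact h6 (key2 _ _ (fun h => h3 (by rw [h])))
  · exact h6 (key1 _ _ (fun h => h3 (by rw [h])))
  · exact h5 (key2 _ _ (fun h => h2 (by rw [h])))
  · exact h4 (key2 _ _ (fun h => h1 (by rw [h])))
  · exact h4 (key2 _ _ (fun h => h1 (by rw [h])))

theorem unb2 (h : P2 H) : ¬ BddITM H := by
  apply not_bdd
  intro c
  obtain ⟨n, hn, h2⟩ := famSplit_unbounded c 1
  refine ⟨_, inferInstance, ⟨Sum.inl ⟨0, hn⟩⟩, famSplit n, ?_, h2⟩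
  rintro ⟨s, hs⟩
  apply P2_up (P2_sub hs h)
  refine ⟨Set.range Sum.inl, ?_, ?_⟩
  · rintro _ ⟨a, rfl⟩ _ ⟨b, rfl⟩ hab
    simp only [famSplit, SimpleGraph.fromRel_adj]
    exact ⟨hab, Or.inl (Or.inl ⟨a, b, rfl, rfl⟩)⟩
  · rintro (a | a) ha (b | b) hb hab
    · exact ha ⟨a, rfl⟩
    · exact ha ⟨a, rfl⟩
    · exact hb ⟨b, rfl⟩
    · simp [famSplit, SimpleGraph.fromRel_adj] at hab

theorem unb3 (h : P3' H) : ¬ BddITM H := by
  apply not_bdd
  intro c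
  obtain ⟨n, hn, h2⟩ := famTrunc_unbounded c 2
  refine ⟨_, inferInstance, ⟨⟨(⟨0, by omega⟩, ⟨1, by omega⟩), by simp⟩⟩, famTrunc n, ?_, h2⟩
  rintro ⟨s, hs⟩
  obtain ⟨v, C, ⟨x, hx⟩, h1, h2⟩ := P3_up (P3_sub hs h)
  have key1 : ∀ w ∈ C, w.1.1 = v.1.1 ∨ (w.1.1 = v.1.2 ∧ w.1.2 = v.1.1) := by
    intro w hw
    obtain ⟨h3, h4⟩ := h1 w hw
    simp only [famTrunc, SimpleGraph.fromRel_adj, not_and] at h4
    have h5 := h4 (Ne.symm h3)
    by_contra hcon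
    push Not at hcon
    apply h5
    left
    rintro (h6 | ⟨h6, h7⟩)
    · exact hcon.1 h6.symm
    · exact hcon.2 h7.symm h6.symm
  have key2 : ∀ w ∈ C, ∀ w' ∈ C, w.1.1 = v.1.1 → (famTrunc n).Adj w w' →
      w'.1.1 = v.1.2 ∧ w'.1.2 = v.1.1 := by
    intro w hw w' hw' h3 h4
    rcases key1 w' hw' with h5 | h5
    · exfalso
      simp only [famTrunc, SimpleGraph.fromRel_adj] at h4
      rcases h4.2 with h6 | h6
      · exact h6 (Or.inl (h3.trans h5.symm))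
      · exact h6 (Or.inl (h5.trans h3.symm))
    · exact h5
  have key3 : ∀ w ∈ C, w.1.1 ≠ v.1.1 := by
    intro w hw h3
    obtain ⟨y, z, hy, hz, hyz, h4, h5⟩ := h2 w hw
    have e1 := key2 w hw y hy h3 h4
    have e2 := key2 w hw z hz h3 h5
    apply hyz
    apply Subtype.ext
    exact Prod.ext (e1.1.trans e2.1.symm) (e1.2.trans e2.2.symm)
  obtain ⟨y, z, hy, hz, hyz, h4, h5⟩ := h2 x hx
  have e1 := (key1 x hx).resolve_left (key3 x hx)
  have e2 := (key1 y hy).resolve_left (key3 y hy)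
  apply h4.ne
  apply Subtype.ext
  exact Prod.ext (e1.1.trans e2.1.symm) (e1.2.trans e2.2.symm)

lemma wall_three {n : ℕ} {x a b c : Fin n × Fin n × Fin 6} (hab : a ≠ b) (hac : a ≠ c) (hbc : b ≠ c)
    (hxa : x ≠ a) (hxb : x ≠ b) (hxc : x ≠ c) (h1 : tri a = tri x) (h2 : tri b = tri x)
    (h3 : tri c = tri x) : False := by
  refine tri_fib ![x, a, b, c] ?_ ?_
  · intro i j hij
    fin_cases i <;> fin_cases j <;> simp_all
  · intro i
    fin_cases i <;> simp_all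

theorem unb4 (h : P4 H) : ¬ BddITM H := by
  apply not_bdd
  intro c
  obtain ⟨n, hn, h2⟩ := wall_unbounded c 1
  refine ⟨_, inferInstance, ⟨(⟨0, hn⟩, ⟨0, hn⟩, 0)⟩, famWall n, ?_, h2⟩
  rintro ⟨s, hs⟩
  obtain ⟨X, b, hb, h1, h2⟩ := P4_up (P4_sub hs h)
  have key : ∀ i, ∃ j k, j ≠ k ∧ j ≠ i ∧ k ≠ i ∧ tri (b j) = tri (b i) ∧ tri (b k) = tri (b i) := by
    intro i
    obtain ⟨h3, y, z, w, hy, hz, hw, n1, n2, n3, a1, a2, a3⟩ := h1 i
    have gen : ∀ y z, y ∈ X → z ∈ X → y ≠ z → (famWall n).Adj (b i) y → (famWall n).Adj (b i) z →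
        tri y = tri (b i) → tri z = tri (b i) →
        ∃ j k, j ≠ k ∧ j ≠ i ∧ k ≠ i ∧ tri (b j) = tri (b i) ∧ tri (b k) = tri (b i) := by
      intro y z hy hz hyz hay haz t1 t2
      have hyz' : (famWall n).Adj y z := tri_adj (t1.trans t2.symm) hyz
      obtain ⟨j, hj⟩ := h2 y hy (b i) h3 z hz hay.symm hyz' haz
      obtain ⟨k, hk⟩ := h2 z hz (b i) h3 y hy haz.symm hyz'.symm hay
      refine ⟨j, k, ?_, ?_, ?_, by rw [hj]; exact t1, by rw [hk]; exact t2⟩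
      · rintro rfl; exact hyz (hj.symm.trans hk)
      · rintro rfl; rw [hj] at hay; exact hay.ne rfl
      · rintro rfl; rw [hk] at haz; exact haz.ne rfl
    rcases wall_claw a1 a2 a3 n1 n2 n3 with ⟨t1, t2⟩ | ⟨t1, t2⟩ | ⟨t1, t2⟩
    · exact gen y z hy hz n1 a1 a2 t1 t2
    · exact gen y w hy hw n2 a1 a3 t1 t2
    · exact gen z w hz hw n3 a2 a3 t1 t2
  refine tri_fib b hb fun i => ?_
  obtain ⟨j, k, e1, e2, e3, e4, e5⟩ := key 0
  obtain ⟨j', k', f1, f2, f3, f4, f5⟩ := key i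
  have pig : ∀ i j k j' k' : Fin 4, j ≠ k → j ≠ 0 → k ≠ 0 → j' ≠ k' → j' ≠ i → k' ≠ i →
      (i = 0 ∨ i = j ∨ i = k) ∨ (j' = 0 ∨ j' = j ∨ j' = k) ∨ (k' = 0 ∨ k' = j ∨ k' = k) := by
    decide
  rcases pig i j k j' k' e1 e2 e3 f1 f2 f3 with (h | h | h) | (h | h | h) | (h | h | h)
  · rw [h]
  · rw [h, e4]
  · rw [h, e5]
  · rw [← f4, h]
  · rw [← f4, h, e4]
  · rw [← f4, h, e5]
  · rw [← f5, h]
  · rw [← f5, h, e4]
  · rw [← f5, h, e5]

theorem unb5 (h : P5 H) : ¬ BddITM H := by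
  apply not_bdd
  intro c
  obtain ⟨n, hn, h2⟩ := wall_unbounded c 1
  refine ⟨_, inferInstance, ⟨(⟨0, hn⟩, ⟨0, hn⟩, 0)⟩, famWall n, ?_, h2⟩
  rintro ⟨s, hs⟩
  obtain ⟨x, b, hb, h1⟩ := P5_up (P5_sub hs h)
  have key : ∀ i j, i ≠ j → tri x = tri (b i) ∨ tri x = tri (b j) := by
    intro i j hij
    by_contra hcon
    push Not at hcon
    exact hij (hb (tri_cross (h1 i) (h1 j) hcon.1 hcon.2))
  have fin : ∀ i j k, i ≠ j → i ≠ k → j ≠ k → tri x = tri (b i) → tri x = tri (b j) →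
      tri x = tri (b k) → False := by
    intro i j k e1 e2 e3 t1 t2 t3
    exact wall_three (hb.ne e1) (hb.ne e2) (hb.ne e3) (h1 i).ne (h1 j).ne (h1 k).ne t1.symm
      t2.symm t3.symm
  by_cases h0 : tri x = tri (b 0)
  · by_cases h1' : tri x = tri (b 1)
    · by_cases h2' : tri x = tri (b 2)
      · exact fin 0 1 2 (by decide) (by decide) (by decide) h0 h1' h2'
      · exact fin 0 1 3 (by decide) (by decide) (by decide) h0 h1'
          ((key 2 3 (by decide)).resolve_left h2')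
    · exact fin 0 2 3 (by decide) (by decide) (by decide) h0
        ((key 1 2 (by decide)).resolve_left h1') ((key 1 3 (by decide)).resolve_left h1')
  · exact fin 1 2 3 (by decide) (by decide) (by decide) ((key 0 1 (by decide)).resolve_left h0)
      ((key 0 2 (by decide)).resolve_left h0) ((key 0 3 (by decide)).resolve_left h0)

end Pool.Agent.Helper917ITM
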